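import Pool.Agent.Helper37K9.CI.Unir
import Pool.Agent.Y184.NT.Dom

/-!
The lines form a congruence of order one.
-/

set_option autoImplicit false
set_option linter.overlappingInstances false
set_option linter.unusedSectionVars false

open FF Polynomial Cardinal Pool.Agent.W602.GT Pool.Agent.W603.LV Pool.Agent.Y184.NT

namespace Pool.Agent.Helper37K9.CI

/-- finitely generated fields of the same transcendence degree -/
theorem finite_of_trdeg {K K' : Type} [Field K] [Field K'] [Algebra ℂ K] [Algebra ℂ K']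
    [Algebra K K'] [IsScalarTower ℂ K K'] [hess : Algebra.EssFiniteType ℂ K'] {n : ℕ}
    (h1 : Algebra.trdeg ℂ K = n) (h2 : Algebra.trdeg ℂ K' = n) : FiniteDimensional K K' := by
  have hadd := trdeg_add_eq ℂ K (A := K')
  rw [h1, h2] at hadd
  have hle : Algebra.trdeg K K' ≤ n := by
    rw [← hadd]
    exact le_add_self
  obtain ⟨k, hk⟩ := Cardinal.lt_aleph0.1 (hle.trans_lt Cardinal.natCast_lt_aleph0)
  rw [hk] at hadd
  have h3 : n + k = n := by exact_mod_cast hadd
  have h4 : k = 0 := by omega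
  rw [h4, Nat.cast_zero] at hk
  have halg : Algebra.IsAlgebraic K K' := trdeg_eq_zero_iff.1 hk
  have hess' : Algebra.EssFiniteType K K' := Algebra.EssFiniteType.of_comp ℂ K K'
  obtain ⟨S, hS⟩ := (IntermediateField.fg_top_iff (F := K) (E := K')).2 hess'
  have hfin : FiniteDimensional K (IntermediateField.adjoin K (S : Set K')) :=
    IntermediateField.finiteDimensional_adjoin fun x _ => (halg.isAlgebraic x).isIntegral
  rw [hS] at hfin
  exact Module.Finite.equiv (IntermediateField.topEquiv (F := K) (E := K')).toLinearEquiv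

section

variable {L K : Type} [Field L] [Field K] [Algebra ℂ L] [Algebra ℂ K] [Algebra L K]
  [IsScalarTower ℂ L K] [FiniteDimensional L K]

theorem shiftN {N : ℕ} {F : MvPolynomial (Fin N) ℂ} {a b : Fin N → L}
    (hab : LinearIndependent L ![a, b]) {τ : K} (hτ : IntermediateField.adjoin L {τ} = ⊤)
    (hr : 2 ≤ Module.finrank L K) (hP : restr F a b ≠ 0) :
    ∃ (a' b' : Fin N → L) (τ' μ : K), μ ≠ 0 ∧ LinearIndependent L ![a', b'] ∧
      MvPolynomial.aeval b' F ≠ 0 ∧ IntermediateField.adjoin L {τ'} = ⊤ ∧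
      (∀ j, algebraMap L K (a j) + τ * algebraMap L K (b j) =
        μ * (algebraMap L K (a' j) + τ' * algebraMap L K (b' j))) ∧
      ∀ (G : MvPolynomial (Fin N) ℂ) (d : ℕ), G.IsHomogeneous d → restr G a b = 0 →
        restr G a' b' = 0 := by
  have hcL : CharZero L := charZero_of_injective_algebraMap (algebraMap ℂ L).injective
  have hinf : Infinite L := inferInstance
  obtain ⟨l, hl⟩ : ∃ l : L, (restr F a b).eval l ≠ 0 := by
    by_contra hcon
    push Not at hcon
    exact hP (Polynomial.funext fun l => by rw [hcon l, eval_zero])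
  have hτl : τ - algebraMap L K l ≠ 0 := by
    intro h0
    rw [sub_eq_zero] at h0
    have h1 : (⊥ : IntermediateField L K) = ⊤ := by
      rw [← hτ, eq_comm, IntermediateField.adjoin_simple_eq_bot_iff, h0]
      exact IntermediateField.algebraMap_mem _ _
    have h2 : Module.finrank L K = 1 := by
      rw [← IntermediateField.finrank_top', ← h1, IntermediateField.finrank_bot]
    omega
  refine ⟨b, fun j => a j + l * b j, (τ - algebraMap L K l)⁻¹, τ - algebraMap L K l, hτl, ?_, ?_,
    ?_, ?_, ?_⟩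
  · rw [LinearIndependent.pair_iff] at hab ⊢
    intro s t h
    obtain ⟨h1, h2⟩ := hab t (s + t * l) (by
      funext j
      have h3 := congrFun h j
      simp only [Pi.add_apply, Pi.smul_apply, smul_eq_mul, Pi.zero_apply] at h3 ⊢
      linear_combination h3)
    rw [h1, zero_mul, add_zero] at h2
    exact ⟨h2, h1⟩
  · rwa [restr_eval] at hl
  · rw [eq_top_iff, ← hτ, IntermediateField.adjoin_simple_le_iff]
    have h1 : τ = ((τ - algebraMap L K l)⁻¹)⁻¹ + algebraMap L K l := by
      rw [inv_inv]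
      ring
    rw [h1]
    refine add_mem (inv_mem ?_) (IntermediateField.algebraMap_mem _ _)
    have h2 := IntermediateField.mem_adjoin_simple_self L ((τ - algebraMap L K l)⁻¹)
    simpa using h2
  · intro j
    rw [map_add, map_mul]
    field_simp
    ring
  · intro G d hG hG0
    -- `b + s (a + l b)` is `s (a + (l + 1 / s) b)`
    by_contra hne
    obtain ⟨s, hs, hs0⟩ : ∃ s : L, (restr G b fun j => a j + l * b j).eval s ≠ 0 ∧ s ≠ 0 := by
      have h1 : (restr G b fun j => a j + l * b j) * X ≠ 0 := mul_ne_zero hne X_ne_zero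
      obtain ⟨s, hs⟩ : ∃ s : L, ((restr G b fun j => a j + l * b j) * X).eval s ≠ 0 := by
        by_contra hcon
        push Not at hcon
        exact h1 (Polynomial.funext fun l => by rw [hcon l, eval_zero])
      rw [eval_mul, eval_X] at hs
      exact ⟨s, left_ne_zero_of_mul hs, right_ne_zero_of_mul hs⟩
    apply hs
    rw [restr_eval]
    have h2 : (fun j => b j + s * (a j + l * b j)) = fun j => s * (a j + (l + s⁻¹) * b j) := by
      funext j
      field_simp
      ring
    rw [h2, Pool.Agent.Y988.NT.aeval_smul_form hG, ← restr_eval, hG0, eval_zero, mul_zero]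

end

/-- a variety which dominates `W` and `V` has large degree over `W` -/
theorem no_second (hNLG : StNLG) {L K K' : Type} [Field L] [Field K] [Field K'] [Algebra ℂ L]
    [Algebra ℂ K] [Algebra ℂ K'] [Algebra L K'] [IsScalarTower ℂ L K'] [FiniteDimensional L K']
    [Algebra.EssFiniteType ℂ L] [Algebra.EssFiniteType ℂ K] {n N m : ℕ} (hn : 1 ≤ n)
    (hL : Algebra.trdeg ℂ L = n) (hK : Algebra.trdeg ℂ K = n) {y : Fin N → K} {j0 : Fin N}
    (hj0 : y j0 = 1) (hgen : IntermediateField.adjoin ℂ (Set.range y) = ⊤)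
    {ω : (Fin n → Derivation ℂ K K) → K} (hω : IsPluri 1 ω) (hω0 : ∃ D, ω D ≠ 0)
    (hreg : ∀ (f : Fin m → Fin N) (P : Place ℂ K), Divisorial n P →
      RegAt P (fun D => (∏ k, y (f k)) * ω D))
    (hpg : ∀ ω : (Fin n → Derivation ℂ L L) → L, IsPluri 1 ω →
      (∀ P : Place ℂ L, Divisorial n P → RegAt P ω) → ∀ D, ω D = 0)
    (φ : K →ₐ[ℂ] K') (hgen' : IntermediateField.adjoin L (Set.range fun j => φ (y j)) = ⊤) :
    m + 2 ≤ Module.finrank L K' := by
  by_contra hcon
  let _ : Algebra K K' := φ.toAlgebra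
  have hst : IsScalarTower ℂ K K' := IsScalarTower.of_algebraMap_eq fun c => (φ.commutes c).symm
  have hess : Algebra.EssFiniteType ℂ K' := Algebra.EssFiniteType.comp ℂ L K'
  have hK' : Algebra.trdeg ℂ K' = n := Pool.Agent.Y172.trdeg_up (K := L) hL
  have hfin : FiniteDimensional K K' := finite_of_trdeg hK hK'
  obtain ⟨θ, hθ, hθr, D, hD⟩ := (dom (M := K) (K := K') (L := L) hNLG hn hK hj0 hgen hω hω0 hreg
    hgen').1 (by omega)
  exact hD (hpg θ hθ hθr D)

section

variable {L K : Type} [Field L] [Field K] [Algebra ℂ L] [Algebra ℂ K] [Algebra L K]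
  [IsScalarTower ℂ L K] [FiniteDimensional L K] [hess : Algebra.EssFiniteType ℂ L]
  [hessK : Algebra.EssFiniteType ℂ K] {n N m d : ℕ}
  {F : MvPolynomial (Fin N) ℂ} {a b : Fin N → L} {τ : K} {x : Fin N → K}

/-- **The places over the variety.** -/
theorem aboveN (hNLG : StNLG) (hVert : StVertG) (hW0 : StW0) (hn : 1 ≤ n)
    (hL : Algebra.trdeg ℂ L = n) (hK : Algebra.trdeg ℂ K = n)
    {ω : (Fin n → Derivation ℂ K K) → K} (hω : IsPluri 1 ω)
    (hω0 : ∃ D, ω D ≠ 0) {j0 : Fin N} (hj0 : x j0 ≠ 0)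
    (hgen : IntermediateField.adjoin ℂ (Set.range fun j => x j / x j0) = ⊤)
    (hreg : ∀ (f : Fin m → Fin N) (P : Place ℂ K), Divisorial n P →
      RegAt P (fun D => (∏ k, x (f k) / x j0) * ω D))
    (hpg : ∀ ω : (Fin n → Derivation ℂ L L) → L, IsPluri 1 ω →
      (∀ P : Place ℂ L, Divisorial n P → RegAt P ω) → ∀ D, ω D = 0)
    (hh : F.IsHomogeneous d) (hab : LinearIndependent L ![a, b])
    (hFb : MvPolynomial.aeval b F ≠ 0) {g h : L[X]} {w0 : Place ℂ (RatFunc L)} (hw0 : IsW0 g w0)
    (hg : ∀ A : L[X], g ∣ A ↔ aeval τ A = 0) (hP : restr F a b = g * h) (hh0 : aeval τ h ≠ 0)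
    (hhd : h.natDegree ≤ m + 1)
    (hx : ∀ j, x j = algebraMap L K (a j) + τ * algebraMap L K (b j))
    {E0 : IntermediateField ℂ (RatFunc L)}
    (hu : ∀ j, io (lin a b j) / io (lin a b j0) ∈ E0) {v : Place ℂ E0} {e0 : ℕ}
    (hv : Over w0 v e0) :
    e0 = 1 ∧ ∀ (w : Place ℂ (RatFunc L)) (e : ℕ), Over w v e → w = w0 := by
  classical
  have hyv : ∀ j, aeval τ (lin a b j) = x j := fun j => by rw [aeval_lin, hx]
  have hy : ∀ j, Sp τ (io (lin a b j)) (x j) := fun j => by
    have := Sp.poly (τ := τ) (lin a b j)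
    rwa [hyv] at this
  obtain ⟨hy0, hy0'⟩ := (hy j0).unit hw0 hg hj0
  obtain ⟨u, hudef⟩ : ∃ u : Fin N → RatFunc L,
    u = fun j => io (lin a b j) / io (lin a b j0) := ⟨_, rfl⟩
  have hu0 : u j0 = 1 := by rw [hudef]; exact div_self hy0
  have hyu : (fun j => io (lin a b j)) = fun j => io (lin a b j0) * u j := by
    funext j
    rw [hudef]
    field_simp
  have hsp : ∀ j, Sp τ (u j) (x j / x j0) := fun j => by
    rw [hudef]
    exact (hy j).div (hy j0) hj0
  have hωr : ∀ P : Place ℂ K, Divisorial n P → RegAt P ω := by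
    intro P hP
    have h1 := hreg (fun _ => j0) P hP
    simp only [div_self hj0, Finset.prod_const_one, one_mul] at h1
    exact h1
  -- the element `F (u)`
  have hFu0 : io (g * h) = io (lin a b j0) ^ d * MvPolynomial.aeval u F := by
    rw [← hP, io_restr, hyu, Pool.Agent.Y988.NT.aeval_smul_form hh]
  obtain ⟨hho, hho'⟩ := hw0.ord_of hg hh0
  have hgo : io g ≠ 0 := by
    intro h0
    have := hw0.one
    rw [h0, Place.ord_zero] at this
    exact zero_ne_one this
  have hFu1 : MvPolynomial.aeval u F ≠ 0 := by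
    intro h0
    rw [h0, mul_zero, io, map_mul] at hFu0
    rcases mul_eq_zero.1 hFu0 with h1 | h1
    · exact hgo h1
    · exact hho h1
  have hord : ∀ w : Place ℂ (RatFunc L), w.ord (io g) + w.ord (io h) =
      d * w.ord (io (lin a b j0)) + w.ord (MvPolynomial.aeval u F) := by
    intro w
    have h1 := congrArg w.ord hFu0
    rw [io, map_mul, ← io, ← io, w.ord_mul hgo hho, w.ord_mul (pow_ne_zero _ hy0) hFu1,
      w.ord_pow] at h1
    exact h1
  have hFu2 : w0.ord (MvPolynomial.aeval u F) = 1 := by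
    have h1 := hord w0
    rw [hw0.one, hho', hy0'] at h1
    omega
  -- the elements in `E0`
  obtain ⟨uE, huE⟩ : ∃ uE : Fin N → E0, ∀ j, (uE j : RatFunc L) = u j :=
    ⟨fun j => ⟨u j, by rw [hudef]; exact hu j⟩, fun _ => rfl⟩
  have huE' : (algebraMap E0 (RatFunc L)) ∘ uE = u := funext huE
  have hev : ∀ G : MvPolynomial (Fin N) ℂ,
      algebraMap E0 (RatFunc L) (MvPolynomial.aeval uE G) = MvPolynomial.aeval u G := by
    intro G
    rw [← MvPolynomial.aeval_algebraMap_apply, huE']
  have hvF : (e0 : ℤ) * v.ord (MvPolynomial.aeval uE F) = 1 := by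
    rw [← hv.2, hev, hFu2]
  have he0 : e0 = 1 := by
    have h1 : (e0 : ℤ) ∣ 1 := ⟨_, hvF.symm⟩
    have h2 : e0 ∣ 1 := by exact_mod_cast h1
    exact Nat.dvd_one.1 h2
  subst he0
  have hvF1 : v.ord (MvPolynomial.aeval uE F) = 1 := by simpa using hvF
  refine ⟨rfl, fun w e hw => ?_⟩
  have hureg : ∀ j, w.Reg (u j) := by
    intro j
    rw [← huE]
    refine hw.reg.2 (hv.reg.1 ?_)
    change w0.Reg (uE j : RatFunc L)
    rw [huE]
    exact (hsp j).reg hw0 hg
  have hwF : w.ord (MvPolynomial.aeval u F) = e := by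
    rw [← hev, hw.2, hvF1, mul_one]
  have he1 : (1 : ℤ) ≤ e := by exact_mod_cast hw.1
  have hα : ∀ j, u j = (io (lin a b j0))⁻¹ * (algebraMap L (RatFunc L) (a j) +
      RatFunc.X * algebraMap L (RatFunc L) (b j)) := by
    intro j
    rw [← io_lin, hudef]
    exact div_eq_inv_mul _ _
  -- the values of the forms at `w`
  have hval0 : ∀ H : MvPolynomial (Fin N) ℂ, MvPolynomial.aeval (fun j => x j / x j0) H = 0 →
      Ge w 1 (MvPolynomial.aeval u H) := by
    intro H hH
    have h1 := Sp.mv (τ := τ) hsp H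
    rw [hH] at h1
    have h2 : Ge w0 1 (MvPolynomial.aeval u H) := h1.ge_one hw0 hg
    rw [← hev] at h2 ⊢
    rcases h2 with h2 | h2
    · exact Or.inl h2
    · right
      rw [hv.2] at h2
      rw [hw.2]
      have h3 : (1 : ℤ) ≤ v.ord (MvPolynomial.aeval uE H) := by simpa using h2
      nlinarith
  have hval1 : ∀ H : MvPolynomial (Fin N) ℂ, MvPolynomial.aeval (fun j => x j / x j0) H ≠ 0 →
      MvPolynomial.aeval u H ≠ 0 ∧ w.ord (MvPolynomial.aeval u H) = 0 := by
    intro H hH
    obtain ⟨h1, h2⟩ := (Sp.mv (τ := τ) hsp H).unit hw0 hg hH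
    refine ⟨h1, ?_⟩
    rw [← hev, hv.2] at h2
    rw [← hev, hw.2]
    have h3 : v.ord (MvPolynomial.aeval uE H) = 0 := by simpa using h2
    rw [h3, mul_zero]
  -- the place is trivial on `L`
  have htriv : ∀ l : L, l ≠ 0 → w.ord (algebraMap L (RatFunc L) l) = 0 := by
    refine hVert L K (RatFunc L) n N hn hL hK ω hω hωr hω0 (fun j => x j / x j0) hgen w a b
      hab u hureg j0 hu0 ((io (lin a b j0))⁻¹) ((io (lin a b j0))⁻¹ * RatFunc.X) (fun j => ?_)
      (fun H hH => hval0 H hH) (fun H hH => hval1 H hH)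
    rw [hα]
    ring
  have hXr : w.Reg (RatFunc.X : RatFunc L) :=
    X_reg htriv hh hFb hα hu0 (Or.inr (by rw [hwF]; exact he1))
  have hpol : ∀ A : L[X], w.Reg (io A) := fun A => by
    rw [io_aeval]
    exact reg_aevalL htriv hXr A
  have hyw : w.ord (io (lin a b j0)) = 0 := by
    have h1 := (hpol (lin a b j0)).resolve_left hy0
    by_contra hne
    have h2 : Ge w 1 (io (lin a b j0)) := Or.inr (by omega)
    have h3 : ∀ j, Ge w 1 (io (lin a b j)) := by
      intro j
      have h4 : io (lin a b j) = io (lin a b j0) * u j := congrFun hyu j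
      rw [h4]
      simpa using h2.mul (show Ge w 0 (u j) from hureg j)
    obtain ⟨i, j, hij⟩ := exists_minor hab
    have h4 : algebraMap L (RatFunc L) (b j) * io (lin a b i) -
        algebraMap L (RatFunc L) (b i) * io (lin a b j) =
        algebraMap L (RatFunc L) (a i * b j - a j * b i) := by
      rw [io_lin, io_lin, map_sub, map_mul, map_mul]
      ring
    have hLr : ∀ l : L, Ge w 0 (algebraMap L (RatFunc L) l) := by
      intro l
      rw [← io_C]
      exact hpol _
    have h5 : Ge w 1 (algebraMap L (RatFunc L) (a i * b j - a j * b i)) := by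
      rw [← h4]
      refine Ge.sub ?_ ?_
      · simpa using (hLr (b j)).mul (h3 i)
      · simpa using (hLr (b i)).mul (h3 j)
    rcases h5 with h5 | h5
    · rw [map_eq_zero] at h5
      exact hij h5
    · rw [htriv _ hij] at h5
      omega
  have hsum := hord w
  rw [hyw, hwF, mul_zero, zero_add] at hsum
  have hgr := (hpol g).resolve_left hgo
  by_cases hg1 : 1 ≤ w.ord (io g)
  · exact hw0.uniq w htriv hg1
  exfalso
  have hg0 : w.ord (io g) = 0 := by omega
  rw [hg0, zero_add] at hsum
  -- the second point of the line on the variety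
  have hh1 : h ≠ 0 := by
    rintro rfl
    rw [map_zero] at hh0
    exact hh0 rfl
  obtain ⟨π, hπ, hπh, hπw⟩ : ∃ π : L[X], Irreducible π ∧ π ∣ h ∧ 1 ≤ w.ord (io π) := by
    by_contra hcon
    push Not at hcon
    have h1 : ∀ A : L[X], A ≠ 0 → (∀ π, Irreducible π → π ∣ A → w.ord (io π) < 1) →
        w.ord (io A) ≤ 0 := by
      intro A
      induction A using WfDvdMonoid.induction_on_irreducible with
      | zero => intro h; exact absurd rfl h
      | unit A hA =>
        intro _ _
        obtain ⟨c, hc, rfl⟩ := Polynomial.isUnit_iff.1 hA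
        rw [io_C]
        rw [htriv _ hc.ne_zero]
      | mul A π hA hπ ih =>
        intro h2 h3
        have h4 : io (π * A) = io π * io A := by rw [io, map_mul]
        rw [h4, w.ord_mul (io_ne hπ.ne_zero) (io_ne hA)]
        have h5 := h3 π hπ (dvd_mul_right _ _)
        have h6 := ih hA fun π' h7 h8 => h3 π' h7 (h8.mul_left _)
        omega
    have h2 := h1 h hh1 hcon
    omega
  have hπf : Fact (Irreducible π) := ⟨hπ⟩
  obtain ⟨wπ, hwπ⟩ := exists_w0 hW0 hπ
  have hww : w = wπ := hwπ.uniq w htriv hπw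
  rw [← hww] at hwπ
  obtain ⟨K', hK', algC, algL, hst, hfin, σ, hσ, hσtop, hσr⟩ : ∃ (K' : Type) (_ : Field K')
      (_ : Algebra ℂ K') (_ : Algebra L K') (_ : IsScalarTower ℂ L K')
      (_ : FiniteDimensional L K') (σ : K'), (∀ A : L[X], π ∣ A ↔ aeval σ A = 0) ∧
      IntermediateField.adjoin L {σ} = ⊤ ∧ Module.finrank L K' = π.natDegree := by
    have hst : IsScalarTower ℂ L (AdjoinRoot π) := inferInstance
    have hfin : FiniteDimensional L (AdjoinRoot π) :=
      (AdjoinRoot.powerBasis hπ.ne_zero).finite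
    refine ⟨AdjoinRoot π, inferInstance, inferInstance, inferInstance, hst, hfin,
      AdjoinRoot.root π, fun A => ?_, ?_, ?_⟩
    · rw [AdjoinRoot.aeval_eq, AdjoinRoot.mk_eq_zero]
    · exact IntermediateField.adjoin_root_eq_top π
    · rw [(AdjoinRoot.powerBasis hπ.ne_zero).finrank, AdjoinRoot.powerBasis_dim]
  obtain ⟨x', hx'⟩ : ∃ x' : Fin N → K', ∀ j, x' j = algebraMap L K' (a j) +
    σ * algebraMap L K' (b j) := ⟨_, fun _ => rfl⟩
  have hyv' : ∀ j, aeval σ (lin a b j) = x' j := fun j => by rw [aeval_lin, hx']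
  have hy' : ∀ j, Sp σ (io (lin a b j)) (x' j) := fun j => by
    have := Sp.poly (τ := σ) (lin a b j)
    rwa [hyv'] at this
  have hx'0 : x' j0 ≠ 0 := by
    intro h0
    have h1 := hy' j0
    rw [h0] at h1
    have h2 : Ge w 1 (io (lin a b j0)) := h1.ge_one hwπ hσ
    rcases h2 with h2 | h2
    · exact hy0 h2
    · omega
  have hsp' : ∀ j, Sp σ (u j) (x' j / x' j0) := fun j => by
    rw [hudef]
    exact (hy' j).div (hy' j0) hx'0
  have hiff : ∀ G : MvPolynomial (Fin N) ℂ, MvPolynomial.aeval (fun j => x j / x j0) G = 0 ↔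
      MvPolynomial.aeval (fun j => x' j / x' j0) G = 0 := by
    intro G
    constructor
    · intro h1
      by_contra h2
      obtain ⟨h3, h4⟩ := (Sp.mv (τ := σ) hsp' G).unit hwπ hσ h2
      have h5 := (hval0 G h1).resolve_left h3
      omega
    · intro h1
      by_contra h2
      obtain ⟨h3, h4⟩ := hval1 G h2
      have h5 := Sp.mv (τ := σ) hsp' G
      rw [h1] at h5
      have h6 := (h5.ge_one hwπ hσ).resolve_left h3
      omega
  obtain ⟨φ, hφ⟩ := exists_hom (fun j => x j / x j0) (fun j => x' j / x' j0) hgen hiff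
  have hgen' : IntermediateField.adjoin L (Set.range fun j => φ (x j / x j0)) = ⊤ := by
    rw [eq_top_iff, ← hσtop, IntermediateField.adjoin_simple_le_iff]
    obtain ⟨B, hB⟩ : ∃ B : IntermediateField L K',
      B = IntermediateField.adjoin L (Set.range fun j => φ (x j / x j0)) := ⟨_, rfl⟩
    rw [← hB]
    have h1 : ∀ j, x' j / x' j0 ∈ B := fun j => by
      rw [← hφ j, hB]
      exact IntermediateField.subset_adjoin _ _ ⟨j, rfl⟩
    have hBL : ∀ l : L, algebraMap L K' l ∈ B := fun l => B.algebraMap_mem l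
    obtain ⟨i, j, hij⟩ := exists_minor hab
    have hD : algebraMap L K' (a i * b j - a j * b i) ≠ 0 := by rwa [Ne, map_eq_zero]
    -- `c = 1 / x' j0`, `c σ`
    have h2 : (x' j0)⁻¹ = (algebraMap L K' (b j) * (x' i / x' j0) -
        algebraMap L K' (b i) * (x' j / x' j0)) / algebraMap L K' (a i * b j - a j * b i) := by
      rw [eq_div_iff hD, hx' i, hx' j, map_sub, map_mul, map_mul]
      field_simp
      ring
    have h3 : (x' j0)⁻¹ * σ = (algebraMap L K' (a i) * (x' j / x' j0) -
        algebraMap L K' (a j) * (x' i / x' j0)) / algebraMap L K' (a i * b j - a j * b i) := by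
      rw [eq_div_iff hD, hx' i, hx' j, map_sub, map_mul, map_mul]
      field_simp
      ring
    have h4 : (x' j0)⁻¹ ∈ B := by
      rw [h2]
      exact div_mem (sub_mem (mul_mem (hBL _) (h1 _)) (mul_mem (hBL _) (h1 _))) (hBL _)
    have h5 : (x' j0)⁻¹ * σ ∈ B := by
      rw [h3]
      exact div_mem (sub_mem (mul_mem (hBL _) (h1 _)) (mul_mem (hBL _) (h1 _))) (hBL _)
    have h6 : σ = ((x' j0)⁻¹ * σ) / (x' j0)⁻¹ := by
      field_simp
    rw [h6]
    exact div_mem h5 h4
  have hfinal := no_second hNLG (L := L) (K := K) (K' := K') (N := N) hn hL hK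
    (y := fun j => x j / x j0) (j0 := j0) (div_self hj0) hgen hω hω0 hreg hpg φ hgen'
  rw [hσr] at hfinal
  have h1 := Polynomial.natDegree_le_of_dvd hπh hh1
  omega

end

end Pool.Agent.Helper37K9.CI
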