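import Pool.Agent.Helper37K9.CI.Cong

/-!
The lines form a congruence of order one: the degree.
-/

set_option autoImplicit false
set_option linter.overlappingInstances false
set_option linter.unusedSectionVars false

open FF Polynomial Cardinal Pool.Agent.W602.GT Pool.Agent.W603.LV Pool.Agent.Y184.NT

namespace Pool.Agent.Helper37K9.CI

/-- a prime element and elements with independent residues are independent -/
theorem indep_place {R : Type} [Field R] [Algebra ℂ R] (w : Place ℂ R) {n : ℕ} {t : Fin n → R}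
    (ht : ∀ G : MvPolynomial (Fin n) ℂ, G ≠ 0 → MvPolynomial.aeval t G ≠ 0 ∧
      w.ord (MvPolynomial.aeval t G) = 0) {f : R} (hf0 : f ≠ 0) (hf : 1 ≤ w.ord f) :
    AlgebraicIndependent ℂ (fun o : Option (Fin n) => o.elim f t) := by
  have hti : AlgebraicIndependent ℂ t := by
    rw [algebraicIndependent_iff]
    intro G hG
    by_contra hne
    exact (ht G hne).1 hG
  rw [hti.option_iff_transcendental]
  intro halg
  obtain ⟨q, hq0, hq⟩ := halg.exists_nonzero_coeff_and_aeval_eq_zero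
    (mem_nonZeroDivisors_of_ne_zero hf0)
  have hP : ∀ c : Algebra.adjoin ℂ (Set.range t), ∃ P : MvPolynomial (Fin n) ℂ,
      MvPolynomial.aeval t P = (c : R) := by
    intro c
    have h : (c : R) ∈ (MvPolynomial.aeval t : MvPolynomial (Fin n) ℂ →ₐ[ℂ] R).range := by
      rw [← Algebra.adjoin_range_eq_range_aeval]
      exact c.2
    exact h
  have hc : ∀ c : Algebra.adjoin ℂ (Set.range t), c ≠ 0 → (c : R) ≠ 0 ∧ w.ord (c : R) = 0 := by
    intro c hc
    obtain ⟨P, hP⟩ := hP c
    rw [← hP]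
    refine ht P ?_
    rintro rfl
    rw [map_zero] at hP
    exact hc (Subtype.ext hP.symm)
  have hreg : ∀ c : Algebra.adjoin ℂ (Set.range t), Ge w 0 (c : R) := by
    intro c
    by_cases h0 : c = 0
    · rw [h0]
      exact Or.inl rfl
    · exact Or.inr (hc c h0).2.ge
  have hfg : Ge w 0 f := Or.inr (by omega)
  rw [Polynomial.aeval_eq_sum_range, Finset.sum_range_succ'] at hq
  have h3 : Ge w 1 (∑ k ∈ Finset.range q.natDegree, q.coeff (k + 1) • f ^ (k + 1)) := by
    refine Ge.sum _ _ fun k _ => ?_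
    rw [Algebra.smul_def, pow_succ]
    have h4 := (hreg (q.coeff (k + 1))).mul ((hfg.pow k).mul (show Ge w 1 f from Or.inr hf))
    simpa using h4
  have h5 : ((q.coeff 0 : Algebra.adjoin ℂ (Set.range t)) : R) =
      -∑ k ∈ Finset.range q.natDegree, q.coeff (k + 1) • f ^ (k + 1) := by
    rw [pow_zero, Algebra.smul_def, mul_one] at hq
    exact eq_neg_of_add_eq_zero_right hq
  obtain ⟨h6, h7⟩ := hc _ hq0
  have h8 : Ge w 1 (((q.coeff 0 : Algebra.adjoin ℂ (Set.range t)) : R)) := by
    rw [h5]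
    exact h3.neg
  have h9 := h8.resolve_left h6
  omega

section

variable {L K : Type} [Field L] [Field K] [Algebra ℂ L] [Algebra ℂ K] [Algebra L K]
  [IsScalarTower ℂ L K] [FiniteDimensional L K] [hess : Algebra.EssFiniteType ℂ L]
  [hessK : Algebra.EssFiniteType ℂ K] {n N m d : ℕ}
  {F : MvPolynomial (Fin (N + 2)) ℂ} {a b : Fin (N + 2) → L} {τ : K} {x : Fin (N + 2) → K}

/-- **The lines form a congruence of order one.** -/
theorem congN (hNLG : StNLG) (hVert : StVertG) (hW0 : StW0) (hDer : StDer) (hn : 1 ≤ n)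
    (hL : Algebra.trdeg ℂ L = n) (hK : Algebra.trdeg ℂ K = n)
    {ω : (Fin n → Derivation ℂ K K) → K} (hω : IsPluri 1 ω)
    (hω0 : ∃ D, ω D ≠ 0) {j0 : Fin (N + 2)} (hj0 : x j0 ≠ 0)
    (hgen : IntermediateField.adjoin ℂ (Set.range fun j => x j / x j0) = ⊤)
    (hreg : ∀ (f : Fin m → Fin (N + 2)) (P : Place ℂ K), Divisorial n P →
      RegAt P (fun D => (∏ k, x (f k) / x j0) * ω D))
    (hpg : ∀ ω : (Fin n → Derivation ℂ L L) → L, IsPluri 1 ω →
      (∀ P : Place ℂ L, Divisorial n P → RegAt P ω) → ∀ D, ω D = 0)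
    (hh : F.IsHomogeneous d) (hab : LinearIndependent L ![a, b])
    (hFb : MvPolynomial.aeval b F ≠ 0)
    (hx : ∀ j, x j = algebraMap L K (a j) + τ * algebraMap L K (b j))
    {h : L[X]} (hP : restr F a b = minpoly L τ * h) (hh0 : aeval τ h ≠ 0)
    (hhd : h.natDegree ≤ m + 1)
    {z : Fin n → L} (hz : IsTranscendenceBasis ℂ z)
    {E : Fin n → Derivation ℂ L L} (hE : ∀ i j, E i (z j) = if i = j then 1 else 0)
    {s : Fin n → Fin (N + 2)} (hsx : AlgebraicIndependent ℂ (fun i => x (s i) / x j0)) :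
    IntermediateField.adjoin ℂ (Set.range fun p : Fin (N + 2) × Fin (N + 2) =>
      algebraMap L[X] (RatFunc L) (lin a b p.1) / algebraMap L[X] (RatFunc L) (lin a b p.2)) =
      ⊤ := by
  classical
  have hint : IsIntegral L τ := Algebra.IsIntegral.isIntegral τ
  obtain ⟨w0, hw0⟩ := exists_w0 hW0 (minpoly.irreducible hint)
  have hg : ∀ A : L[X], minpoly L τ ∣ A ↔ aeval τ A = 0 := fun A => minpoly.dvd_iff
  have hyv : ∀ j, aeval τ (lin a b j) = x j := fun j => by rw [aeval_lin, hx]
  have hy : ∀ j, Sp τ (io (lin a b j)) (x j) := fun j => by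
    have := Sp.poly (τ := τ) (lin a b j)
    rwa [hyv] at this
  obtain ⟨hy0, hy0'⟩ := (hy j0).unit hw0 hg hj0
  obtain ⟨u, hudef⟩ : ∃ u : Fin (N + 2) → RatFunc L,
    u = fun j => io (lin a b j) / io (lin a b j0) := ⟨_, rfl⟩
  have hsp : ∀ j, Sp τ (u j) (x j / x j0) := fun j => by
    rw [hudef]
    exact (hy j).div (hy j0) hj0
  obtain ⟨ht, -⟩ := hDer L n z hz E hE
  obtain ⟨E0, hE0⟩ : ∃ E0 : IntermediateField ℂ (RatFunc L), E0 = IntermediateField.adjoin ℂ
    (Set.range fun j => io (lin a b j) / io (lin a b j0)) := ⟨_, rfl⟩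
  have huE : ∀ j, io (lin a b j) / io (lin a b j0) ∈ E0 := by
    intro j
    rw [hE0]
    exact IntermediateField.subset_adjoin _ _ ⟨j, rfl⟩
  obtain ⟨uE, huE2⟩ : ∃ uE : Fin (N + 2) → E0, ∀ j, (uE j : RatFunc L) = u j :=
    ⟨fun j => ⟨u j, by rw [hudef]; exact huE j⟩, fun _ => rfl⟩
  have huE' : (algebraMap E0 (RatFunc L)) ∘ uE = u := funext huE2
  have hev : ∀ G : MvPolynomial (Fin (N + 2)) ℂ,
      algebraMap E0 (RatFunc L) (MvPolynomial.aeval uE G) = MvPolynomial.aeval u G := by
    intro G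
    rw [← MvPolynomial.aeval_algebraMap_apply, huE']
  -- the element `F (u)`
  have hyu : (fun j => io (lin a b j)) = fun j => io (lin a b j0) * u j := by
    funext j
    rw [hudef]
    field_simp
  have hFu0 : io (minpoly L τ * h) = io (lin a b j0) ^ d * MvPolynomial.aeval u F := by
    rw [← hP, io_restr, hyu, Pool.Agent.Y988.NT.aeval_smul_form hh]
  obtain ⟨hho, hho'⟩ := hw0.ord_of hg hh0
  have hgo : io (minpoly L τ) ≠ 0 := by
    intro h0
    have := hw0.one
    rw [h0, Place.ord_zero] at this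
    exact zero_ne_one this
  have hFu1 : MvPolynomial.aeval u F ≠ 0 := by
    intro h0
    rw [h0, mul_zero, io, map_mul] at hFu0
    rcases mul_eq_zero.1 hFu0 with h1 | h1
    · exact hgo h1
    · exact hho h1
  have hFu2 : w0.ord (MvPolynomial.aeval u F) = 1 := by
    have h1 := congrArg w0.ord hFu0
    rw [io, map_mul, ← io, ← io, w0.ord_mul hgo hho, w0.ord_mul (pow_ne_zero _ hy0) hFu1,
      w0.ord_pow, hw0.one, hho', hy0'] at h1
    omega
  have hG : ∀ G : MvPolynomial (Fin n) ℂ, G ≠ 0 →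
      MvPolynomial.aeval (fun i => u (s i)) G ≠ 0 ∧
        w0.ord (MvPolynomial.aeval (fun i => u (s i)) G) = 0 := by
    intro G hG
    refine (Sp.mv (τ := τ) (u := fun i => u (s i)) (x := fun i => x (s i) / x j0)
      (fun i => hsp (s i)) G).unit hw0 hg ?_
    intro h0
    exact hG ((injective_iff_map_eq_zero _).1 hsx G h0)
  have hind := indep_place w0 hG hFu1 hFu2.ge
  -- the transcendence degrees
  have hessR : Algebra.EssFiniteType ℂ (RatFunc L) := ess_ratFunc
  have htrR : Algebra.trdeg ℂ (RatFunc L) = (n + 1 : ℕ) := by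
    rw [← ht.cardinalMk_eq_trdeg]
    simp
  have hindE : AlgebraicIndependent ℂ (fun o : Option (Fin n) =>
      o.elim (MvPolynomial.aeval uE F) fun i => uE (s i)) := by
    refine AlgebraicIndependent.of_comp E0.val ?_
    have h1 : (E0.val : E0 → RatFunc L) ∘ (fun o : Option (Fin n) =>
        o.elim (MvPolynomial.aeval uE F) fun i => uE (s i)) =
        fun o => o.elim (MvPolynomial.aeval u F) fun i => u (s i) := by
      funext o
      rcases o with _ | i
      · exact hev F
      · exact huE2 (s i)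
    rw [h1]
    exact hind
  have htr1 : ((n + 1 : ℕ) : Cardinal) ≤ Algebra.trdeg ℂ E0 := by
    have h1 := hindE.cardinalMk_le_trdeg
    simpa using h1
  have htr2 : Algebra.trdeg ℂ E0 ≤ ((n + 1 : ℕ) : Cardinal) := by
    rw [← htrR]
    exact trdeg_le_of_injective E0.val Subtype.val_injective
  have htr : Algebra.trdeg ℂ E0 = (n + 1 : ℕ) := le_antisymm htr2 htr1
  have hfin : FiniteDimensional E0 (RatFunc L) := finite_of_trdeg htr htrR
  have hessE : Algebra.EssFiniteType ℂ E0 := Pool.Agent.TH466.QG.ess_below (K := RatFunc L)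
  obtain ⟨v, e0, hv⟩ := Pool.Agent.Y172.exists_below (k := ℂ) (K := E0) w0
  obtain ⟨he0, hab'⟩ := aboveN hNLG hVert hW0 hn hL hK hω hω0 hj0 hgen hreg hpg hh hab hFb hw0 hg
    hP hh0 hhd hx huE hv
  subst he0
  obtain ⟨S, T, hS, hT, hsum⟩ := exists_places_over (K' := RatFunc L) v
  have hw0S : w0 ∈ S := hS w0 1 hv
  have hS1 : S = {w0} := by
    ext w
    rw [Finset.mem_singleton]
    constructor
    · intro hw
      obtain ⟨e, hov, -⟩ := hT w hw
      exact hab' w e hov
    · rintro rfl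
      exact hw0S
  rw [hS1, Finset.sum_singleton] at hsum
  obtain ⟨e, hov, hTe, -⟩ := hT w0 hw0S
  have he : e = 1 := (Pool.Agent.Y172.over_unique' hov hv).2
  subst he
  have hrk : @Module.finrank v.RF w0.RF _ _ hov.resMap.toRingHom.toAlgebra.toModule = 1 := by
    let _ : Algebra v.RF w0.RF := hov.resMap.toRingHom.toAlgebra
    refine finrank_eq_one (R := v.RF) (M := w0.RF) (1 : w0.RF) one_ne_zero fun ρ => ?_
    obtain ⟨⟨f, hf⟩, rfl⟩ := w0.resHom_surjective ρ
    have huE3 : ∀ j, u j ∈ E0 := fun j => by rw [← huE2]; exact (uE j).2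
    obtain ⟨f', hf', hff⟩ := res_onto hw0 hg hsp hgen huE3 hf
    have hf'v : v.Reg f' := hv.reg.1 hf'
    refine ⟨v.red f', ?_⟩
    rw [Algebra.smul_def, mul_one]
    change hov.resMap (v.red f') = _
    rw [hov.resMap_red hf'v]
    have h1 : w0.red (algebraMap E0 (RatFunc L) f') = w0.red f := by
      have h2 : w0.red (f - (f' : RatFunc L)) = 0 := by
        rw [w0.red_eq_zero_iff (hff.mono (by norm_num))]
        exact hff
      rw [w0.red_sub hf hf', sub_eq_zero] at h2
      exact h2.symm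
    rw [h1, w0.red_of_reg hf]
  rw [hrk, mul_one] at hTe
  rw [hTe] at hsum
  have htop : E0 = ⊤ := IntermediateField.finrank_eq_one_iff_eq_top.1 hsum.symm
  rw [eq_top_iff, ← htop, hE0]
  refine IntermediateField.adjoin.mono _ _ _ ?_
  rintro _ ⟨j, rfl⟩
  exact ⟨(j, j0), rfl⟩

end

end Pool.Agent.Helper37K9.CI
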