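import Pool.Agent.TH145.SP.Special
import Pool.Agent.Y988.NT.Res

/-!
The canonical forms of a smooth complete intersection.
-/

set_option autoImplicit false

open MvPolynomial FF Pool.Agent.W603.LV Pool.Agent.W602.GT Pool.Agent.TH145.GH
open Pool.Agent.TH145.SP (SmoothCI MM MM_det grad_rows det_scale det_ne_zero exists_ders
  exists_minor_ne exists_tau exists_unit_minor)
open Pool.Agent.Y988.NT (bump det_bump sum_der)

namespace Pool.Agent.Helper37K9.CI

section

variable {L : Type} [Field L] [Algebra ℂ L] {N p : ℕ} {A : Type} [Fintype A] [DecidableEq A]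

theorem MM_pluri (e : Fin (p + 1) ⊕ A ≃ Fin (N + 1)) (x : Fin (N + 1) → L)
    (τ : A → Fin (N + 1) → L) :
    IsPluri 1 (fun D : Fin p → Derivation ℂ L L =>
      (MM e (Pool.Agent.TH145.SP.rows x D) τ).det) := by
  intro M D
  have h : MM e (Pool.Agent.TH145.SP.rows x (fun i => ∑ j, M i j • D j)) τ =
      Matrix.fromBlocks (bump 1 (fun _ => 0) M) 0 0 1 * MM e (Pool.Agent.TH145.SP.rows x D) τ := by
    ext i j
    rw [Matrix.mul_apply, Fintype.sum_sum_type]
    rcases i with i | a
    · simp only [Matrix.fromBlocks_apply₁₁, Matrix.fromBlocks_apply₁₂, Matrix.zero_apply, zero_mul,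
        Finset.sum_const_zero, add_zero]
      rw [Fin.sum_univ_succ]
      refine Fin.cases ?_ (fun i => ?_) i
      · simp [bump, MM, Pool.Agent.TH145.SP.rows]
      · simp only [bump, MM, Pool.Agent.TH145.SP.rows, Matrix.of_apply, Fin.cons_succ,
          Fin.cons_zero, Sum.elim_inl, zero_mul, zero_add]
        exact sum_der (M i) D (x (e j))
    · simp only [Matrix.fromBlocks_apply₂₁, Matrix.fromBlocks_apply₂₂, Matrix.zero_apply, zero_mul,
        Finset.sum_const_zero, zero_add, Matrix.one_apply, ite_mul, one_mul, Finset.sum_ite_eq,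
        Finset.mem_univ, if_true]
      rfl
  change (MM e (Pool.Agent.TH145.SP.rows x (fun i => ∑ j, M i j • D j)) τ).det = _
  rw [h, Matrix.det_mul, Matrix.det_fromBlocks_zero₁₂, det_bump, Matrix.det_one]
  ring

/-- the canonical forms of a smooth complete intersection -/
theorem exists_form {F : A → MvPolynomial (Fin (N + 1)) ℂ} {d : A → ℕ}
    (hd : ∀ a, (F a).IsHomogeneous (d a)) (hsm : SmoothCI F) {m : ℕ}
    (hm : m + N + 1 = ∑ a, d a) (hp : p + Fintype.card A = N) {x : Fin (N + 1) → L}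
    (hF : ∀ a, aeval x (F a) = 0) {j0 : Fin (N + 1)} (hj0 : x j0 = 1) {s : Fin p → Fin (N + 1)}
    (hs : AlgebraicIndependent ℂ fun i => x (s i)) :
    ∃ ω : (Fin p → Derivation ℂ L L) → L, IsPluri 1 ω ∧ (∃ D, ω D ≠ 0) ∧
      ∀ (f : Fin m → Fin (N + 1)) (P : Place ℂ L), RegAt P (fun D => (∏ k, x (f k)) * ω D) := by
  have hcard : Fintype.card (Fin (p + 1) ⊕ A) = Fintype.card (Fin (N + 1)) := by
    rw [Fintype.card_sum, Fintype.card_fin, Fintype.card_fin]
    omega
  obtain ⟨e⟩ : Nonempty (Fin (p + 1) ⊕ A ≃ Fin (N + 1)) := ⟨Fintype.equivOfCardEq hcard⟩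
  have hx0 : x ≠ 0 := by
    intro h0
    rw [h0] at hj0
    exact zero_ne_one hj0
  obtain ⟨S, hS⟩ := exists_minor_ne hsm (l := j0) (by rw [hj0]; exact one_ne_zero) hF
  obtain ⟨τ, hτ, -⟩ := exists_tau hS
  have hd0 : ∀ a, 0 < d a := by
    intro a
    by_contra h0
    have h1 : d a = 0 := by omega
    have h2 := hτ a a
    rw [if_pos rfl] at h2
    apply zero_ne_one (α := L)
    rw [← h2]
    symm
    refine Finset.sum_eq_zero fun j _ => ?_
    have h3 := hd a
    rw [h1] at h3
    have h4 : F a = C ((F a).coeff 0) := by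
      exact (totalDegree_eq_zero_iff_eq_C.1 (Nat.le_zero.1 h3.totalDegree_le))
    rw [h4, pderiv_C, map_zero, zero_mul]
  obtain ⟨D0, hD0⟩ := exists_ders hs
  refine ⟨fun D => (MM e (Pool.Agent.TH145.SP.rows x D) τ).det, MM_pluri e x τ,
    ⟨D0, det_ne_zero hd hF hj0 hD0 e hτ⟩, fun f P => ?_⟩
  obtain ⟨lam, x', hlam, hlamP, hxx, hx', e1, he1⟩ := exists_scaled P hx0
  have hF' : ∀ a, aeval x' (F a) = 0 := by
    intro a
    have h1 : aeval x (F a) = lam ^ d a * aeval x' (F a) := by
      rw [hxx, Pool.Agent.TH145.MG.aeval_smul (hd a)]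
    rw [hF] at h1
    exact (mul_eq_zero.1 h1.symm).resolve_left (pow_ne_zero _ hlam)
  obtain ⟨S', hS'0, hS'⟩ := exists_unit_minor hsm P hx' (l := e1) (by
    rw [he1]; exact one_ne_zero) (by rw [he1, P.ord_one]) hF'
  obtain ⟨τ', hτ', hτP⟩ := exists_tau hS'0
  have hτP := hτP P hx' hS'
  intro D hD
  change P.Reg ((∏ k, x (f k)) * (MM e (Pool.Agent.TH145.SP.rows x D) τ).det)
  have hprod : ∏ k, x (f k) = (∏ k, x' (f k)) * lam ^ m := by
    have h1 : ∀ k, x (f k) = x' (f k) * lam := by
      intro k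
      have h2 := congrFun hxx (f k)
      rw [Pi.smul_apply, smul_eq_mul] at h2
      rw [h2, mul_comm]
    rw [Finset.prod_congr rfl fun k _ => h1 k, Finset.prod_mul_distrib, Finset.prod_const,
      Finset.card_univ, Fintype.card_fin]
  rw [hprod, mul_assoc, det_scale hlam hxx hd0 hm e τ D]
  have hgr : ∀ a b, ∑ j, aeval x' (pderiv j (F a)) * (lam ^ (d b - 1) • τ b) j =
      if a = b then 1 else 0 := by
    intro a b
    have h1 : ∀ j, aeval x (pderiv j (F a)) = lam ^ (d a - 1) * aeval x' (pderiv j (F a)) := by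
      intro j
      rw [hxx, Pool.Agent.TH145.MG.aeval_smul ((hd a).pderiv)]
    have h2 := hτ a b
    simp only [h1] at h2
    have h3 : ∑ j, aeval x' (pderiv j (F a)) * (lam ^ (d b - 1) • τ b) j =
        lam ^ (d b - 1) * ((lam ^ (d a - 1))⁻¹ *
          ∑ j, lam ^ (d a - 1) * aeval x' (pderiv j (F a)) * τ b j) := by
      rw [Finset.mul_sum, Finset.mul_sum]
      refine Finset.sum_congr rfl fun j _ => ?_
      rw [Pi.smul_apply, smul_eq_mul]
      have := pow_ne_zero (d a - 1) hlam
      field_simp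
    rw [h3, h2]
    split_ifs with hab
    · subst hab
      rw [mul_one, mul_inv_cancel₀ (pow_ne_zero _ hlam)]
    · rw [mul_zero, mul_zero]
  rw [MM_det (fun i a => grad_rows hd hF' D i a) hτ' hgr]
  have h4 := Pool.Agent.TH145.GC.ge_det P (MM e (Pool.Agent.TH145.SP.rows x' D) τ') (c := 0) (by
    intro i j
    rw [neg_zero]
    rcases i with i | a
    · refine Fin.cases ?_ (fun i => ?_) i
      · exact hx' _
      · exact hD i _ (hx' _)
    · exact hτP a _)
  rw [mul_zero, neg_zero] at h4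
  have h5 : Ge P 0 (∏ k, x' (f k)) := by
    have h6 : ∀ s : Finset (Fin m), Ge P 0 (∏ k ∈ s, x' (f k)) := by
      intro s
      classical
      induction s using Finset.induction_on with
      | empty => rw [Finset.prod_empty]; exact Ge.one
      | insert a s ha ih =>
        rw [Finset.prod_insert ha]
        have := (hx' (f a)).mul ih
        rwa [add_zero] at this
    exact h6 _
  have := h5.mul h4
  rwa [add_zero] at this

end

end Pool.Agent.Helper37K9.CI
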