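import Pool.Agent.Helper37K9.CI.Spec

/-!
Independent points on a line.
-/

set_option autoImplicit false

open Polynomial

namespace Pool.Agent.Helper37K9.CI

section

variable {M : Type} [Field M] [Algebra ℂ M]

/-- the value at zero -/
noncomputable def ev0 (M : Type) [Field M] [Algebra ℂ M] : M[X] →ₐ[ℂ] M :=
  (Polynomial.aeval (0 : M)).restrictScalars ℂ

theorem ev0_apply (p : M[X]) : ev0 M p = p.eval 0 := by
  change Polynomial.aeval (0 : M) p = _
  rw [Polynomial.coe_aeval_eq_eval]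

theorem indep_line {n : ℕ} {b : Fin n → M} (hb : AlgebraicIndependent ℂ b) {w : Fin n → M[X]}
    {γ : ℂ} {c0 : M} (hc0 : c0 ≠ 0) (hw : ∀ i : Fin n, (w i).eval 0 = b i) :
    AlgebraicIndependent ℂ (fun o : Option (Fin n) =>
      o.elim (C (algebraMap ℂ M γ) + X * C c0) w) := by
  have hwb : (fun i => ev0 M (w i)) = b := by
    funext i
    rw [ev0_apply, hw]
  have hwi : AlgebraicIndependent ℂ w := by
    refine AlgebraicIndependent.of_comp (ev0 M) ?_
    have h1 : (ev0 M : M[X] → M) ∘ w = b := hwb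
    rw [h1]
    exact hb
  rw [hwi.option_iff_transcendental]
  intro halg
  have h1 : IsAlgebraic (Algebra.adjoin ℂ (Set.range w)) (X * C c0 : M[X]) := by
    have h2 : (X * C c0 : M[X]) = (C (algebraMap ℂ M γ) + X * C c0) - C (algebraMap ℂ M γ) := by
      ring
    rw [h2]
    refine halg.sub ?_
    have h3 : (C (algebraMap ℂ M γ) : M[X]) =
        algebraMap (Algebra.adjoin ℂ (Set.range w)) M[X] (algebraMap ℂ _ γ) := rfl
    rw [h3]
    exact isAlgebraic_algebraMap _
  have hne : (X * C c0 : M[X]) ≠ 0 := mul_ne_zero X_ne_zero (by rwa [Ne, C_eq_zero])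
  obtain ⟨q, hq0, hq⟩ := h1.exists_nonzero_coeff_and_aeval_eq_zero
    (mem_nonZeroDivisors_of_ne_zero hne)
  apply hq0
  obtain ⟨P, hP⟩ : ∃ P : MvPolynomial (Fin n) ℂ, MvPolynomial.aeval w P = (q.coeff 0 : M[X]) := by
    have h : (q.coeff 0 : M[X]) ∈ (MvPolynomial.aeval w : MvPolynomial (Fin n) ℂ →ₐ[ℂ] M[X]).range := by
      rw [← Algebra.adjoin_range_eq_range_aeval]
      exact (q.coeff 0).2
    exact h
  have h2 : ev0 M (q.coeff 0 : M[X]) = 0 := by
    have h3 := congrArg (ev0 M) hq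
    rw [map_zero, Polynomial.aeval_eq_sum_range, map_sum, Finset.sum_range_succ'] at h3
    have h4 : ∑ k ∈ Finset.range q.natDegree, ev0 M (q.coeff (k + 1) • (X * C c0) ^ (k + 1)) = 0 := by
      refine Finset.sum_eq_zero fun k _ => ?_
      rw [Algebra.smul_def, map_mul, map_pow, ev0_apply (X * C c0)]
      simp
    rw [h4, zero_add, pow_zero, Algebra.smul_def, mul_one] at h3
    exact h3
  have h3 : MvPolynomial.aeval b P = 0 := by
    rw [← hwb]
    have h4 := MvPolynomial.comp_aeval_apply (φ := ev0 M) w P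
    rw [← h4, hP, h2]
  have h4 : P = 0 := (injective_iff_map_eq_zero _).1 hb P h3
  rw [h4, map_zero] at hP
  exact Subtype.ext hP.symm

end

end Pool.Agent.Helper37K9.CI
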