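import Pool.Agent.Helper37K9.CI.Spec
import Pool.Agent.TH145.SP.Special

/-!
The dimension of a variety at a point where the gradients of the equations are independent.
-/

set_option autoImplicit false

open Cardinal MvPolynomial

namespace Pool.Agent.Helper37K9.CI

open scoped IntermediateField.algebraAdjoinAdjoin in
/-- algebraically independent coordinates -/
theorem exists_coord {R : Type} [Field R] [Algebra ℂ R] {m : ℕ} (y : Fin m → R) {d : ℕ}
    (hd : (d : Cardinal) ≤ Algebra.trdeg ℂ (IntermediateField.adjoin ℂ (Set.range y))) :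
    ∃ s : Fin d → Fin m, AlgebraicIndependent ℂ (fun i => y (s i)) := by
  classical
  obtain ⟨E, hE⟩ : ∃ E, E = IntermediateField.adjoin ℂ (Set.range y) := ⟨_, rfl⟩
  rw [← hE] at hd
  have hy : ∀ j, y j ∈ E := fun j => by
    rw [hE]
    exact IntermediateField.subset_adjoin _ _ ⟨j, rfl⟩
  obtain ⟨yE, hyE⟩ : ∃ yE : Fin m → E, ∀ j, (yE j : R) = y j := ⟨fun j => ⟨y j, hy j⟩, fun _ => rfl⟩
  have hgen : IntermediateField.adjoin ℂ (Set.range yE) = ⊤ := by
    rw [eq_top_iff]
    rintro ⟨a, ha⟩ -
    have h1 : E ≤ (IntermediateField.adjoin ℂ (Set.range yE)).map E.val := by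
      refine hE.le.trans ?_
      rw [IntermediateField.adjoin_le_iff]
      rintro _ ⟨j, rfl⟩
      exact ⟨yE j, IntermediateField.subset_adjoin _ _ ⟨j, rfl⟩, hyE j⟩
    obtain ⟨b, hb, hba⟩ := h1 ha
    have h2 : b = ⟨a, ha⟩ := Subtype.ext hba
    rwa [← h2]
  have h1 : Algebra.IsAlgebraic (IntermediateField.adjoin ℂ (Set.range yE)) E := by
    rw [hgen]
    infer_instance
  have h2 : Algebra.IsAlgebraic (Algebra.adjoin ℂ (Set.range yE)) E :=
    (IsFractionRing.comap_isAlgebraic_iff (A := Algebra.adjoin ℂ (Set.range yE))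
      (K := IntermediateField.adjoin ℂ (Set.range yE)) (C := E)).2 h1
  obtain ⟨t, ht, hb⟩ := exists_isTranscendenceBasis_subset (R := ℂ) (Set.range yE)
  have hcard := hb.cardinalMk_eq_trdeg
  rw [← hcard] at hd
  have h3 : Cardinal.mk (Fin d) ≤ Cardinal.mk t := by simpa using hd
  obtain ⟨e⟩ := (Cardinal.le_def _ _).1 h3
  choose s hs using fun i : Fin d => ht (e i).2
  refine ⟨s, ?_⟩
  have h4 : AlgebraicIndependent ℂ (fun i : Fin d => ((e i : t) : E)) :=
    hb.1.comp _ e.injective
  have h5 : AlgebraicIndependent ℂ (fun i : Fin d => ((((e i : t) : E)) : R)) :=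
    h4.map' (f := E.val) E.val.injective
  convert h5 using 1
  funext i
  rw [← hyE, hs i]

/-- rows with a nonzero minor are independent -/
theorem ind_of_minor {R κ : Type} [Field R] [Fintype κ] [DecidableEq κ] {m : ℕ}
    {w : κ → Fin m → R} {σ : κ → Fin m} (h : (Matrix.of fun i j => w i (σ j)).det ≠ 0) :
    LinearIndependent R w := by
  rw [Fintype.linearIndependent_iff]
  intro g hg
  by_contra hcon
  push Not at hcon
  obtain ⟨i, hi⟩ := hcon
  apply h
  rw [← Matrix.exists_vecMul_eq_zero_iff]
  refine ⟨g, fun h => hi (congrFun h i), ?_⟩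
  funext j
  have h1 := congrFun hg (σ j)
  rw [Finset.sum_apply] at h1
  rw [Matrix.vecMul, dotProduct]
  exact h1

theorem ind_of_jac {R κ : Type} [Field R] [Algebra ℂ R] [Fintype κ] [DecidableEq κ] {N : ℕ}
    {G : κ → MvPolynomial (Fin (N + 1)) ℂ} {S : κ → Fin (N + 1)} {y : Fin (N + 1) → R}
    (h : aeval y (Pool.Agent.TH145.SP.jac G S) ≠ 0) :
    LinearIndependent R fun (k : κ) (j : Fin (N + 1)) => aeval y (pderiv j (G k)) := by
  rw [Pool.Agent.TH145.SP.aeval_jac] at h
  exact ind_of_minor (w := fun (k : κ) (j : Fin (N + 1)) => aeval y (pderiv j (G k))) h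

theorem exists_jac {R κ : Type} [Field R] [Algebra ℂ R] [Fintype κ] [DecidableEq κ] {N : ℕ}
    {G : κ → MvPolynomial (Fin (N + 1)) ℂ} {y : Fin (N + 1) → R}
    (h : LinearIndependent R fun (k : κ) (j : Fin (N + 1)) => aeval y (pderiv j (G k))) :
    ∃ S : κ → Fin (N + 1), aeval y (Pool.Agent.TH145.SP.jac G S) ≠ 0 := by
  obtain ⟨S, hS⟩ := Pool.Agent.TH145.GC.exists_minor _ h
  refine ⟨S, ?_⟩
  rw [Pool.Agent.TH145.SP.aeval_jac]
  exact hS

/-- independent vectors which are orthogonal to independent vectors -/
theorem card_le_of_orth {R ι κ : Type} [Field R] [Fintype ι] [Fintype κ] {m : ℕ}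
    {u : ι → Fin m → R} {v : κ → Fin m → R} (hu : LinearIndependent R u)
    (hv : LinearIndependent R v) (h : ∀ i k, ∑ j, u i j * v k j = 0) :
    Fintype.card ι + Fintype.card κ ≤ m := by
  classical
  have h1 := Matrix.rank_add_rank_le_card_of_mul_eq_zero (A := Matrix.of u)
    (B := (Matrix.of v).transpose) (by
      ext i k
      rw [Matrix.mul_apply]
      exact h i k)
  have h2 : (Matrix.of u).rank = Fintype.card ι := LinearIndependent.rank_matrix hu
  have h3 : (Matrix.of v).rank = Fintype.card κ := LinearIndependent.rank_matrix hv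
  rw [Matrix.rank_transpose, h2, h3, Fintype.card_fin] at h1
  exact h1

theorem trdeg_le_of_grad {R κ : Type} [Field R] [Algebra ℂ R] [Fintype κ] {N d : ℕ}
    {y : Fin (N + 1) → R} {j0 : Fin (N + 1)} (hj0 : y j0 = 1)
    {G : κ → MvPolynomial (Fin (N + 1)) ℂ} {e : κ → ℕ} (hG : ∀ k, (G k).IsHomogeneous (e k))
    (hy : ∀ k, aeval y (G k) = 0)
    (hind : LinearIndependent R fun (k : κ) (j : Fin (N + 1)) => aeval y (pderiv j (G k)))
    (hd : d + Fintype.card κ = N) :
    Algebra.trdeg ℂ (IntermediateField.adjoin ℂ (Set.range y)) ≤ d := by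
  classical
  by_contra hcon
  rw [not_le] at hcon
  have h0 : ((d + 1 : ℕ) : Cardinal) ≤
      Algebra.trdeg ℂ (IntermediateField.adjoin ℂ (Set.range y)) := by
    have := Order.succ_le_of_lt hcon
    rw [Cardinal.succ_natCast] at this
    exact_mod_cast this
  obtain ⟨s, hs⟩ := exists_coord y h0
  have hcR : CharZero ℂ := inferInstance
  obtain ⟨D, hD⟩ := Pool.Agent.TH145.SP.exists_ders hs
  have h1 : ∀ i k, ∑ j, D i (y j) * aeval y (pderiv j (G k)) = 0 := by
    intro i k
    rw [← Pool.Agent.TH145.SP.grad_der (hy k) (D i)]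
    exact Finset.sum_congr rfl fun j _ => mul_comm _ _
  have h2 := card_le_of_orth (R := R) (ι := Fin (d + 1)) (κ := Option κ)
    (u := fun i j => D i (y j))
    (v := fun o j => o.elim (if j = j0 then 1 else 0) fun k => aeval y (pderiv j (G k)))
    (by
      rw [Fintype.linearIndependent_iff]
      intro g hg i
      have h3 := congrFun hg (s i)
      rw [Finset.sum_apply] at h3
      simp only [Pi.smul_apply, smul_eq_mul, hD, mul_ite, mul_one, mul_zero,
        Finset.sum_ite_eq', Finset.mem_univ, if_true, Pi.zero_apply] at h3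
      exact h3)
    (by
      rw [Fintype.linearIndependent_iff]
      intro g hg
      have h4 : ∀ j, g none * (if j = j0 then 1 else 0) +
          ∑ k, g (some k) * aeval y (pderiv j (G k)) = 0 := by
        intro j
        have h3 := congrFun hg j
        rw [Finset.sum_apply, Fintype.sum_option] at h3
        simpa using h3
      have h5 : g none = 0 := by
        have h6 : ∑ j, y j * (g none * (if j = j0 then 1 else 0) +
            ∑ k, g (some k) * aeval y (pderiv j (G k))) = 0 :=
          Finset.sum_eq_zero fun j _ => by rw [h4, mul_zero]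
        have h7 : ∑ j, y j * (g none * (if j = j0 then 1 else 0) +
            ∑ k, g (some k) * aeval y (pderiv j (G k))) =
            g none + ∑ k, g (some k) * ∑ j, aeval y (pderiv j (G k)) * y j := by
          simp only [mul_add, Finset.sum_add_distrib, Finset.mul_sum]
          congr 1
          · rw [Finset.sum_eq_single j0]
            · rw [if_pos rfl, hj0, one_mul, mul_one]
            · intro j _ hj
              rw [if_neg hj, mul_zero, mul_zero]
            · intro h; exact absurd (Finset.mem_univ _) h
          · rw [Finset.sum_comm]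
            exact Finset.sum_congr rfl fun k _ => Finset.sum_congr rfl fun j _ => by ring
        rw [h7] at h6
        simp only [Pool.Agent.TH145.SP.grad_self (hG _) (hy _), mul_zero, Finset.sum_const_zero,
          add_zero] at h6
        exact h6
      have h8 := (Fintype.linearIndependent_iff.1 hind) (fun k => g (some k)) (by
        funext j
        have h9 := h4 j
        rw [h5, zero_mul, zero_add] at h9
        rw [Finset.sum_apply]
        simpa using h9)
      intro o
      rcases o with _ | k
      · exact h5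
      · exact h8 k)
    (by
      intro i o
      rcases o with _ | k
      · have h3 : ∀ j, D i (y j) * (if j = j0 then 1 else 0) = 0 := by
          intro j
          by_cases hj : j = j0
          · rw [hj, hj0, Derivation.map_one_eq_zero, zero_mul]
          · rw [if_neg hj, mul_zero]
        exact Finset.sum_eq_zero fun j _ => h3 j
      · exact h1 i k)
  rw [Fintype.card_fin, Fintype.card_option] at h2
  omega

end Pool.Agent.Helper37K9.CI
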