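import Pool.Agent.Helper37K9.CI.Unir2
import Pool.Agent.Helper37K9.CI.Jac
import Pool.Agent.H952R2.Sextic.CommonZero
import Pool.Agent.Y692.NT.JacA

/-!
Complete intersections of low degree are covered by lines.
-/

set_option autoImplicit false
set_option linter.overlappingInstances false

open Polynomial Cardinal
open Pool.Agent.W619.PQ (IsUniruled)

namespace Pool.Agent.Helper37K9.CI

section sys

variable {Λ : Type} [Field Λ] [Algebra ℂ Λ] {N : ℕ}

/-- the line through `z` with the indeterminate direction -/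
noncomputable def gl (z : Fin N → Λ) (j : Fin N) : Polynomial (MvPolynomial (Fin N) Λ) :=
  C (MvPolynomial.C (z j)) + X * C (MvPolynomial.X j)

theorem eval_gl (z u : Fin N → Λ) (G : MvPolynomial (Fin N) ℂ) :
    Polynomial.map (MvPolynomial.eval u) (MvPolynomial.aeval (gl z) G) =
      MvPolynomial.aeval (ln z u) G := by
  rw [← Polynomial.coe_mapRingHom, MvPolynomial.aeval_def, MvPolynomial.hom_eval₂,
    MvPolynomial.aeval_def]
  congr 1
  · refine RingHom.ext fun c => ?_
    change Polynomial.map _ (C (MvPolynomial.C (algebraMap ℂ Λ c))) = C (algebraMap ℂ Λ c)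
    rw [Polynomial.map_C, MvPolynomial.eval_C]
  · funext j
    simp [gl, ln]

theorem eval_zero_ln (z u : Fin N → Λ) (G : MvPolynomial (Fin N) ℂ) :
    (MvPolynomial.aeval (ln z u) G).eval 0 = MvPolynomial.aeval z G := by
  have h1 := MvPolynomial.comp_aeval_apply (φ := ev0 Λ) (ln z u) G
  rw [ev0_apply] at h1
  rw [h1]
  congr 2
  funext j
  rw [ev0_apply]
  simp [ln]

theorem aeval_ln_zero (z : Fin N → Λ) (G : MvPolynomial (Fin N) ℂ) :
    MvPolynomial.aeval (ln z 0) G = C (MvPolynomial.aeval z G) := by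
  have h1 : ln z 0 = fun j => algebraMap Λ (Polynomial Λ) (z j) := by
    funext j
    simp [ln]
  rw [h1]
  exact MvPolynomial.aeval_algebraMap_apply (Polynomial Λ) z G

theorem exists_dir [IsAlgClosed Λ] {κ : Type} [Fintype κ] {z : Fin N → Λ} (j0 : Fin N)
    {G : κ → MvPolynomial (Fin N) ℂ} {e : κ → ℕ} (hG : ∀ k, (G k).IsHomogeneous (e k))
    (hz : ∀ k, MvPolynomial.aeval z (G k) = 0) (hdeg : ∑ k, e k + 1 < N) :
    ∃ u : Fin N → Λ, u ≠ 0 ∧ u j0 = 0 ∧ ∀ k, MvPolynomial.aeval (ln z u) (G k) = 0 := by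
  classical
  obtain ⟨u, hu0, hu⟩ := Pool.Agent.H952R2.Sextic.exists_common_zero
    (ι := Fin N) (κ := (Σ k, Fin (e k)) ⊕ Unit) (K := Λ) (by
      rw [Fintype.card_sum, Fintype.card_sigma, Fintype.card_unit, Fintype.card_fin]
      simpa using hdeg)
    (Sum.elim (fun p => (MvPolynomial.aeval (gl z) (G p.1)).coeff ((p.2 : ℕ) + 1))
      fun _ => MvPolynomial.X j0) (by
      rintro (⟨k, i⟩ | _)
      · change MvPolynomial.eval 0 ((MvPolynomial.aeval (gl z) (G k)).coeff ((i : ℕ) + 1)) = 0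
        rw [← Polynomial.coeff_map, eval_gl, aeval_ln_zero, coeff_C_succ]
      · change MvPolynomial.eval 0 (MvPolynomial.X j0) = 0
        simp)
  refine ⟨u, hu0, ?_, fun k => ?_⟩
  · have h1 := hu (Sum.inr ())
    change MvPolynomial.eval u (MvPolynomial.X j0) = 0 at h1
    simpa using h1
  · ext c
    rw [coeff_zero]
    rcases Nat.eq_zero_or_pos c with rfl | hc
    · rw [coeff_zero_eq_eval_zero, eval_zero_ln, hz]
    · by_cases hce : c ≤ e k
      · have h1 := hu (Sum.inl ⟨k, ⟨c - 1, by omega⟩⟩)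
        change MvPolynomial.eval u ((MvPolynomial.aeval (gl z) (G k)).coeff (c - 1 + 1)) = 0 at h1
        rw [← Polynomial.coeff_map, eval_gl, Nat.sub_add_cancel hc] at h1
        exact h1
      · have h1 := (Pool.Agent.Y692.NT.restr_coeff (hG k) z u).1
        exact coeff_eq_zero_of_natDegree_lt (lt_of_le_of_lt h1 (by omega))

end sys

/-- **Complete intersections of low degree are uniruled.** -/
theorem uniruled_of_low_degree {L : Type} [Field L] [Algebra ℂ L] {N n : ℕ}
    (hn : Algebra.trdeg ℂ L = n) {z : Fin (N + 1) → L}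
    (hgen : IntermediateField.adjoin ℂ (Set.range z) = ⊤) {j0 : Fin (N + 1)} (hj0 : z j0 = 1)
    {κ : Type} [Fintype κ] {G : κ → MvPolynomial (Fin (N + 1)) ℂ} {e : κ → ℕ}
    (hG : ∀ k, (G k).IsHomogeneous (e k)) (hz : ∀ k, MvPolynomial.aeval z (G k) = 0)
    (hind : LinearIndependent L fun (k : κ) (j : Fin (N + 1)) =>
      MvPolynomial.aeval z (MvPolynomial.pderiv j (G k)))
    (hd : n + Fintype.card κ = N) (hdeg : ∑ k, e k + 1 ≤ N) : IsUniruled ℂ L n := by
  classical
  obtain ⟨u, hu0, huj, hu⟩ := exists_dir (Λ := AlgebraicClosure L)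
    (z := fun j => algebraMap L (AlgebraicClosure L) (z j)) j0 hG (fun k => by
      have h1 := MvPolynomial.aeval_algebraMap_apply (AlgebraicClosure L) z (G k)
      rw [hz, map_zero] at h1
      exact h1) (by omega)
  obtain ⟨Ω, hΩ⟩ : ∃ Ω : IntermediateField L (AlgebraicClosure L),
    Ω = IntermediateField.adjoin L (Set.range u) := ⟨_, rfl⟩
  have huΩ : ∀ j, u j ∈ Ω := fun j => by
    rw [hΩ]
    exact IntermediateField.subset_adjoin _ _ ⟨j, rfl⟩
  have hfin : FiniteDimensional L Ω := by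
    rw [hΩ]
    exact IntermediateField.finiteDimensional_adjoin fun x _ =>
      (Algebra.IsAlgebraic.isAlgebraic x).isIntegral
  obtain ⟨v, hv⟩ : ∃ v : Fin (N + 1) → Ω, ∀ j, algebraMap Ω (AlgebraicClosure L) (v j) = u j :=
    ⟨fun j => ⟨u j, huΩ j⟩, fun _ => rfl⟩
  have hstΩ : IsScalarTower ℂ Ω (AlgebraicClosure L) := IsScalarTower.of_algebraMap_eq fun c => rfl
  have hinj : Function.Injective (algebraMap Ω (AlgebraicClosure L)) :=
    (algebraMap Ω (AlgebraicClosure L)).injective
  have hv0 : v ≠ 0 := by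
    rintro rfl
    apply hu0
    funext j
    rw [← hv, Pi.zero_apply, map_zero]
    rfl
  have hvj : v j0 = 0 := by
    apply hinj
    rw [hv, huj, map_zero]
  obtain ⟨zΩ, hzΩ⟩ : ∃ zΩ : Fin (N + 1) → Ω, zΩ = fun j => algebraMap L Ω (z j) := ⟨_, rfl⟩
  have hmap : ∀ F : MvPolynomial (Fin (N + 1)) ℂ,
      Polynomial.map (algebraMap Ω (AlgebraicClosure L)) (MvPolynomial.aeval (ln zΩ v) F) =
      MvPolynomial.aeval (ln (fun j => algebraMap L (AlgebraicClosure L) (z j)) u) F := by
    intro F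
    rw [← Polynomial.coe_mapRingHom, MvPolynomial.aeval_def, MvPolynomial.hom_eval₂,
      MvPolynomial.aeval_def]
    congr 1
    · refine RingHom.ext fun c => ?_
      change Polynomial.map _ (C (algebraMap ℂ Ω c)) = C (algebraMap ℂ (AlgebraicClosure L) c)
      rw [Polynomial.map_C, ← IsScalarTower.algebraMap_apply]
    · funext j
      simp only [ln, hzΩ, Polynomial.coe_mapRingHom, Polynomial.map_add,
        Polynomial.map_mul, Polynomial.map_C, Polynomial.map_X, hv]
      rw [← IsScalarTower.algebraMap_apply]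
  have hvG : ∀ k, MvPolynomial.aeval (ln zΩ v) (G k) = 0 := by
    intro k
    apply Polynomial.map_injective _ hinj
    rw [hmap, hu, Polynomial.map_zero]
  refine uniruled_of_lines hn hgen (Ω := Ω) (u := v) hv0 ?_
  rw [← hzΩ]
  -- the generic point of the line
  obtain ⟨y, hy⟩ : ∃ y : Fin (N + 1) → RatFunc Ω,
    y = fun j => algebraMap (Polynomial Ω) (RatFunc Ω) (ln zΩ v j) := ⟨_, rfl⟩
  have hyG : ∀ F : MvPolynomial (Fin (N + 1)) ℂ, MvPolynomial.aeval y F =
      algebraMap (Polynomial Ω) (RatFunc Ω) (MvPolynomial.aeval (ln zΩ v) F) := by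
    intro F
    rw [hy]
    exact MvPolynomial.aeval_algebraMap_apply (RatFunc Ω) (ln zΩ v) F
  have hzF : ∀ F : MvPolynomial (Fin (N + 1)) ℂ, MvPolynomial.aeval zΩ F =
      algebraMap L Ω (MvPolynomial.aeval z F) := by
    intro F
    rw [hzΩ]
    exact MvPolynomial.aeval_algebraMap_apply Ω z F
  have hyind : LinearIndependent (RatFunc Ω) fun (k : κ) (j : Fin (N + 1)) =>
      MvPolynomial.aeval y (MvPolynomial.pderiv j (G k)) := by
    obtain ⟨S, hS⟩ := exists_jac hind
    refine ind_of_jac (S := S) fun h0 => hS ?_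
    rw [hyG] at h0
    have h2 : MvPolynomial.aeval (ln zΩ v) (Pool.Agent.TH145.SP.jac G S) = 0 :=
      IsFractionRing.injective (Polynomial Ω) (RatFunc Ω) (by rw [h0, map_zero])
    have h3 := eval_zero_ln zΩ v (Pool.Agent.TH145.SP.jac G S)
    rw [h2, eval_zero, hzF] at h3
    exact (map_eq_zero _).1 h3.symm
  have hyj : y j0 = 1 := by
    rw [hy]
    change algebraMap (Polynomial Ω) (RatFunc Ω) (C (zΩ j0) + X * C (v j0)) = 1
    rw [hvj, hzΩ]
    simp [hj0]
  have hytr := trdeg_le_of_grad hyj hG (fun k => by rw [hyG, hvG, map_zero]) hyind hd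
  obtain ⟨s, hs⟩ := exists_coord z (d := n) (by
    rw [hgen]
    have h1 : Algebra.trdeg ℂ (⊤ : IntermediateField ℂ L) = Algebra.trdeg ℂ L :=
      IntermediateField.topEquiv.trdeg_eq
    rw [h1, hn])
  intro F hF
  have h1 := spec_eq (y := y) (z := z) (fun F hF => by
    rw [hyG] at hF
    have h2 : MvPolynomial.aeval (ln zΩ v) F = 0 :=
      IsFractionRing.injective (Polynomial Ω) (RatFunc Ω) (by rw [hF, map_zero])
    have h3 := eval_zero_ln zΩ v F
    rw [h2, eval_zero, hzF] at h3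
    exact (map_eq_zero _).1 h3.symm) hytr hs F hF
  rw [hyG] at h1
  exact IsFractionRing.injective (Polynomial Ω) (RatFunc Ω) (by rw [h1, map_zero])

end Pool.Agent.Helper37K9.CI
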