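import Pool.Agent.Helper37K9.CI.Jac
import Pool.Agent.Y484.NT.Rat
import Pool.Agent.Y184.NT.Cong
import Pool.Agent.Y184.NT.Prep

/-!
The hyperplane sections of a variety with a congruence of lines of order one.
-/

set_option autoImplicit false
set_option linter.overlappingInstances false

open Polynomial Pool.Agent.Y184.NT
open Pool.Agent.Y484.NT (pr_of_mem mem_of_eval)

namespace Pool.Agent.Helper37K9.CI

/-- the derivative of the restriction of a form to a line -/
theorem deriv_restr {L : Type} [Field L] [Algebra ℂ L] {N : ℕ} (a b : Fin N → L)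
    (F : MvPolynomial (Fin N) ℂ) :
    derivative (restr F a b) = ∑ l, restr (MvPolynomial.pderiv l F) a b * C (b l) := by
  classical
  unfold restr
  induction F using MvPolynomial.induction_on with
  | C c =>
    rw [MvPolynomial.aeval_C]
    have h : algebraMap ℂ L[X] c = C (algebraMap ℂ L c) := rfl
    rw [h, derivative_C]
    simp
  | add p q hp hq => simp only [map_add, hp, hq, add_mul, Finset.sum_add_distrib]
  | mul_X p i hp =>
    have h1 : ∀ l, MvPolynomial.aeval (lin a b) (MvPolynomial.pderiv l (p * MvPolynomial.X i)) *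
        C (b l) = (if l = i then MvPolynomial.aeval (lin a b) p * C (b l) else 0) +
          lin a b i * (MvPolynomial.aeval (lin a b) (MvPolynomial.pderiv l p) * C (b l)) := by
      intro l
      rw [(MvPolynomial.pderiv l).leibniz, smul_eq_mul, smul_eq_mul, map_add, map_mul, map_mul,
        MvPolynomial.aeval_X, MvPolynomial.pderiv_X, add_mul]
      congr 1
      · by_cases hb : l = i
        · subst hb
          simp
        · rw [if_neg hb, Pi.single_eq_of_ne (Ne.symm hb)]
          simp
      · ring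
    have h2 : derivative (lin a b i) = C (b i) := by simp [lin]
    rw [map_mul, MvPolynomial.aeval_X, derivative_mul, hp, Finset.sum_congr rfl fun l _ => h1 l,
      Finset.sum_add_distrib, Finset.sum_ite_eq' Finset.univ i, if_pos (Finset.mem_univ _), h2,
      ← Finset.mul_sum]
    ring

section

variable {L : Type} [Field L] [Algebra ℂ L] [Algebra.EssFiniteType ℂ L] {N : ℕ}

/-- the section with a hyperplane -/
theorem exists_section {a b : Fin (N + 2) → L} (hab : LinearIndependent L ![a, b])
    (hgen : IntermediateField.adjoin ℂ (Set.range fun p : Fin (N + 2) × Fin (N + 2) =>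
      algebraMap L[X] (RatFunc L) (lin a b p.1) / algebraMap L[X] (RatFunc L) (lin a b p.2)) = ⊤)
    {Q : L[X]} (hQ : Q ≠ 0) :
    ∃ (i1 i2 : Fin (N + 2)) (μ : ℂ) (c : L), i1 ≠ i2 ∧ b i1 - algebraMap ℂ L μ * b i2 ≠ 0 ∧
      a i2 + c * b i2 ≠ 0 ∧ (a i1 + c * b i1) = algebraMap ℂ L μ * (a i2 + c * b i2) ∧
      Q.eval c ≠ 0 ∧ IntermediateField.adjoin ℂ (Set.range fun j : Fin (N + 2) =>
        (a j + c * b j) / (a i2 + c * b i2)) = ⊤ := by
  classical
  -- the two coordinates
  have hb : ∃ i2, b i2 ≠ 0 := by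
    by_contra h
    push Not at h
    have h1 : b = 0 := funext h
    exact hab.ne_zero 1 (by simpa using h1)
  obtain ⟨i2, hi2⟩ := hb
  have hD : ∃ i1, a i1 * b i2 - a i2 * b i1 ≠ 0 := by
    by_contra h
    push Not at h
    have h1 := (LinearIndependent.pair_iff.1 hab) (b i2) (-(a i2)) (by
      funext j
      simp only [Pi.add_apply, Pi.smul_apply, smul_eq_mul, Pi.zero_apply]
      linear_combination h j)
    exact hi2 h1.1
  obtain ⟨i1, hi1⟩ := hD
  have hi12 : i1 ≠ i2 := by
    intro h
    rw [h] at hi1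
    exact hi1 (by ring)
  -- generators
  obtain ⟨S, hS⟩ := IntermediateField.fg_top ℂ L
  have hex : ∀ f : L, ∃ (d : ℕ) (G H : MvPolynomial (Fin (N + 2)) ℂ), G.IsHomogeneous d ∧
      H.IsHomogeneous d ∧ restr H a b ≠ 0 ∧ algebraMap L[X] (RatFunc L) (C f) =
        algebraMap L[X] (RatFunc L) (restr G a b) / algebraMap L[X] (RatFunc L) (restr H a b) := by
    intro f
    have h1 : algebraMap L[X] (RatFunc L) (C f) ∈ IntermediateField.adjoin ℂ
        (Set.range fun p : Fin (N + 2) × Fin (N + 2) => algebraMap L[X] (RatFunc L) (lin a b p.1) /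
          algebraMap L[X] (RatFunc L) (lin a b p.2)) := by
      rw [hgen]
      exact IntermediateField.mem_top
    exact pr_of_mem a b h1
  choose d G H hG hH hH0 hGH using hex
  -- the bad values
  obtain ⟨B, hB⟩ : ∃ B : Finset L, B = (S.biUnion (fun f => (restr (H f) a b).roots.toFinset) ∪
      (lin a b i2).roots.toFinset) ∪ Q.roots.toFinset := ⟨_, rfl⟩
  have hlin : lin a b i2 ≠ 0 := by
    intro h
    apply hi2
    have h1 := congrArg (fun P : L[X] => P.coeff 1) h
    unfold lin at h1
    simpa using h1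
  have hgood : ∀ c : L, c ∉ B → (∀ f ∈ S, (restr (H f) a b).eval c ≠ 0) ∧
      a i2 + c * b i2 ≠ 0 ∧ Q.eval c ≠ 0 := by
    intro c hc
    rw [hB, Finset.mem_union, Finset.mem_union, not_or, not_or] at hc
    refine ⟨fun f hf h => ?_, fun h => ?_, fun h => ?_⟩
    · apply hc.1.1
      rw [Finset.mem_biUnion]
      refine ⟨f, hf, ?_⟩
      rw [Multiset.mem_toFinset, Polynomial.mem_roots (hH0 f)]
      exact h
    · apply hc.1.2
      rw [Multiset.mem_toFinset, Polynomial.mem_roots hlin]
      unfold lin
      change Polynomial.eval c _ = 0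
      rw [Polynomial.eval_add, Polynomial.eval_C, Polynomial.eval_mul, Polynomial.eval_X,
        Polynomial.eval_C]
      exact h
    · apply hc.2
      rw [Multiset.mem_toFinset, Polynomial.mem_roots hQ]
      exact h
  -- the points with constant ratio
  obtain ⟨cf, hcf⟩ : ∃ cf : ℂ → L, ∀ μ, cf μ = -(a i1 - algebraMap ℂ L μ * a i2) /
      (b i1 - algebraMap ℂ L μ * b i2) := ⟨_, fun _ => rfl⟩
  have hinf : ∃ μ : ℂ, b i1 - algebraMap ℂ L μ * b i2 ≠ 0 ∧ cf μ ∉ B := by
    have h1 : (Set.univ \ {μ : ℂ | b i1 - algebraMap ℂ L μ * b i2 = 0}).Infinite := by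
      refine Set.infinite_univ.sdiff (Set.Subsingleton.finite ?_)
      intro μ hμ ν hν
      have h2 : b i1 - algebraMap ℂ L μ * b i2 = 0 := hμ
      have h3 : b i1 - algebraMap ℂ L ν * b i2 = 0 := hν
      apply (algebraMap ℂ L).injective
      apply mul_right_cancel₀ hi2
      linear_combination h3 - h2
    have h2 : Set.InjOn cf (Set.univ \ {μ : ℂ | b i1 - algebraMap ℂ L μ * b i2 = 0}) := by
      intro μ hμ ν hν h
      have h2 : b i1 - algebraMap ℂ L μ * b i2 ≠ 0 := hμ.2
      have h3 : b i1 - algebraMap ℂ L ν * b i2 ≠ 0 := hν.2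
      rw [hcf, hcf, div_eq_div_iff h2 h3] at h
      apply (algebraMap ℂ L).injective
      apply mul_right_cancel₀ hi1
      linear_combination -h
    obtain ⟨c, ⟨μ, hμ, rfl⟩, hc⟩ := (h1.image h2).exists_notMem_finset B
    exact ⟨μ, hμ.2, hc⟩
  obtain ⟨μ, hμ, hcB⟩ := hinf
  obtain ⟨c, hc⟩ : ∃ c, c = cf μ := ⟨_, rfl⟩
  rw [← hc] at hcB
  obtain ⟨hcS, hci, hcQ⟩ := hgood c hcB
  have hrat : (a i1 + c * b i1) = algebraMap ℂ L μ * (a i2 + c * b i2) := by
    have h1 : c * (b i1 - algebraMap ℂ L μ * b i2) = -(a i1 - algebraMap ℂ L μ * a i2) := by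
      rw [hc, hcf, div_mul_cancel₀ _ hμ]
    linear_combination h1
  -- the field is generated by the ratios
  have htop : IntermediateField.adjoin ℂ (Set.range fun j : Fin (N + 2) =>
      (a j + c * b j) / (a i2 + c * b i2)) = ⊤ := by
    rw [eq_top_iff, ← hS, IntermediateField.adjoin_le_iff]
    intro f hf
    exact mem_of_eval a b i2 (hG f) (hH f) (hH0 f) (hGH f) (hcS f hf) hci
  exact ⟨i1, i2, μ, c, hi12, hμ, hci, hrat, hcQ, htop⟩

/-- the base of the congruence is a component of a hyperplane section -/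
theorem section_data {κ : Type} [Fintype κ] [DecidableEq κ]
    {F : κ → MvPolynomial (Fin (N + 2)) ℂ} {d : κ → ℕ} (hd : ∀ j, (F j).IsHomogeneous (d j))
    {a b : Fin (N + 2) → L} (hab : LinearIndependent L ![a, b])
    (hgen : IntermediateField.adjoin ℂ (Set.range fun p : Fin (N + 2) × Fin (N + 2) =>
      algebraMap L[X] (RatFunc L) (lin a b p.1) / algebraMap L[X] (RatFunc L) (lin a b p.2)) = ⊤)
    {k : κ} (hz : ∀ j, j ≠ k → restr (F j) a b = 0) {Q : L[X]} (hQ : Q ≠ 0)
    (hQi : ∀ c : L, Q.eval c ≠ 0 → LinearIndependent L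
      fun (j : {j // j ≠ k}) (l : Fin (N + 2)) =>
        MvPolynomial.aeval (fun i => a i + c * b i) (MvPolynomial.pderiv l (F j.1))) :
    ∃ (H : MvPolynomial (Fin (N + 2)) ℂ) (z : Fin (N + 2) → L) (i2 : Fin (N + 2)),
      H.IsHomogeneous 1 ∧ H ≠ 0 ∧ z i2 = 1 ∧ IntermediateField.adjoin ℂ (Set.range z) = ⊤ ∧
      (∀ j, MvPolynomial.aeval z (Function.update F k H j) = 0) ∧
      LinearIndependent L fun (j : κ) (l : Fin (N + 2)) =>
        MvPolynomial.aeval z (MvPolynomial.pderiv l (Function.update F k H j)) := by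
  obtain ⟨i1, i2, μ, c, h12, hb, hs0, hrel, hcQ, htop⟩ := exists_section hab hgen hQ
  obtain ⟨s, hs⟩ : ∃ s, s = a i2 + c * b i2 := ⟨_, rfl⟩
  rw [← hs] at hs0 hrel
  obtain ⟨z, hzdef⟩ : ∃ z : Fin (N + 2) → L, z = fun j => (a j + c * b j) / s := ⟨_, rfl⟩
  have hsz : (fun i => a i + c * b i) = fun i => s * z i := by
    funext i
    rw [hzdef]
    field_simp
  obtain ⟨H, hH⟩ : ∃ H : MvPolynomial (Fin (N + 2)) ℂ,
    H = MvPolynomial.X i1 - MvPolynomial.C μ * MvPolynomial.X i2 := ⟨_, rfl⟩
  have hpd : ∀ l, MvPolynomial.aeval z (MvPolynomial.pderiv l H) =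
      (if l = i1 then (1 : L) else 0) - algebraMap ℂ L μ * (if l = i2 then 1 else 0) := by
    intro l
    rw [hH, map_sub, (MvPolynomial.pderiv l).leibniz, MvPolynomial.pderiv_C,
      MvPolynomial.pderiv_X, MvPolynomial.pderiv_X]
    simp only [smul_eq_mul, map_sub]
    congr 1
    · by_cases h : l = i1
      · subst h; simp
      · rw [if_neg h, Pi.single_eq_of_ne (Ne.symm h), map_zero]
    · by_cases h : l = i2
      · subst h; simp
      · rw [if_neg h, Pi.single_eq_of_ne (Ne.symm h)]
        simp
  have hrow : ∀ j, j ≠ k → ∀ l, MvPolynomial.aeval (fun i => a i + c * b i)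
      (MvPolynomial.pderiv l (F j)) =
      s ^ (d j - 1) * MvPolynomial.aeval z (MvPolynomial.pderiv l (F j)) := by
    intro j _ l
    rw [hsz, Pool.Agent.Y988.NT.aeval_smul_form (hd j).pderiv]
  refine ⟨H, z, i2, ?_, ?_, ?_, ?_, ?_, ?_⟩
  · rw [hH]
    refine (MvPolynomial.isHomogeneous_X _ _).sub ?_
    have h1 := (MvPolynomial.isHomogeneous_C (Fin (N + 2)) μ).mul
      (MvPolynomial.isHomogeneous_X ℂ i2)
    rwa [zero_add] at h1
  · intro h0
    have h1 := hpd i1
    rw [h0, map_zero, map_zero, if_pos rfl, if_neg h12, mul_zero, sub_zero] at h1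
    exact zero_ne_one h1
  · rw [hzdef, hs]
    exact div_self (hs ▸ hs0)
  · rw [hzdef, hs]
    exact htop
  · intro j
    by_cases hj : j = k
    · subst hj
      rw [Function.update_self, hH, map_sub, map_mul, MvPolynomial.aeval_X, MvPolynomial.aeval_X,
        MvPolynomial.aeval_C, hzdef]
      simp only
      rw [hrel, ← hs]
      field_simp
      ring
    · rw [Function.update_of_ne hj]
      have h1 := restr_eval (F j) a b c
      rw [hz j hj, eval_zero, hsz, Pool.Agent.Y988.NT.aeval_smul_form (hd j)] at h1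
      exact (mul_eq_zero.1 h1.symm).resolve_left (pow_ne_zero _ hs0)
  · rw [Fintype.linearIndependent_iff]
    intro g hg
    have hg' : ∀ l, ∑ j, g j *
        MvPolynomial.aeval z (MvPolynomial.pderiv l (Function.update F k H j)) = 0 := by
      intro l
      have h1 := congrFun hg l
      rw [Finset.sum_apply] at h1
      exact h1
    -- the direction of the line
    have hdir : ∀ j, j ≠ k →
        ∑ l, MvPolynomial.aeval z (MvPolynomial.pderiv l (F j)) * b l = 0 := by
      intro j hj
      have h1 := congrArg (Polynomial.eval c) (deriv_restr a b (F j))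
      rw [hz j hj, derivative_zero, eval_zero, Polynomial.eval_finsetSum] at h1
      have h2 : ∀ l, eval c (restr (MvPolynomial.pderiv l (F j)) a b * C (b l)) =
          s ^ (d j - 1) * (MvPolynomial.aeval z (MvPolynomial.pderiv l (F j)) * b l) := by
        intro l
        rw [eval_mul, eval_C, restr_eval, hrow j hj l]
        ring
      rw [Finset.sum_congr rfl fun l _ => h2 l, ← Finset.mul_sum] at h1
      exact (mul_eq_zero.1 h1.symm).resolve_left (pow_ne_zero _ hs0)
    have hgk : g k = 0 := by
      have h1 : ∑ l, (∑ j, g j *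
          MvPolynomial.aeval z (MvPolynomial.pderiv l (Function.update F k H j))) * b l = 0 :=
        Finset.sum_eq_zero fun l _ => by rw [hg', zero_mul]
      have h2 : ∑ l, (∑ j, g j *
          MvPolynomial.aeval z (MvPolynomial.pderiv l (Function.update F k H j))) * b l =
          ∑ j, g j * ∑ l,
            MvPolynomial.aeval z (MvPolynomial.pderiv l (Function.update F k H j)) * b l := by
        simp only [Finset.sum_mul, Finset.mul_sum]
        rw [Finset.sum_comm]
        exact Finset.sum_congr rfl fun j _ => Finset.sum_congr rfl fun l _ => by ring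
      rw [h2, Finset.sum_eq_single k] at h1
      · rw [Function.update_self] at h1
        have h3 : ∑ l, MvPolynomial.aeval z (MvPolynomial.pderiv l H) * b l =
            b i1 - algebraMap ℂ L μ * b i2 := by
          simp only [hpd, sub_mul, Finset.sum_sub_distrib, ite_mul, one_mul, zero_mul,
            Finset.sum_ite_eq', Finset.mem_univ, if_true, mul_ite, mul_one, mul_zero]
        rw [h3] at h1
        exact (mul_eq_zero.1 h1).resolve_right hb
      · intro j _ hj
        rw [Function.update_of_ne hj, hdir j hj, mul_zero]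
      · intro h
        exact absurd (Finset.mem_univ _) h
    have hgj := (Fintype.linearIndependent_iff.1 (hQi c hcQ))
      (fun j => g j.1 * (s ^ (d j.1 - 1))⁻¹) (by
        funext l
        rw [Finset.sum_apply]
        have h1 := hg' l
        rw [Fintype.sum_eq_add_sum_subtype_ne _ k, hgk, zero_mul, zero_add] at h1
        rw [Pi.zero_apply, ← h1]
        refine Finset.sum_congr rfl fun j _ => ?_
        rw [Pi.smul_apply, smul_eq_mul, hrow j.1 j.2 l, Function.update_of_ne j.2]
        have h2 := pow_ne_zero (d j.1 - 1) hs0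
        field_simp)
    intro j
    by_cases hj : j = k
    · rw [hj, hgk]
    · have h1 := hgj ⟨j, hj⟩
      exact (mul_eq_zero.1 h1).resolve_right (inv_ne_zero (pow_ne_zero _ hs0))

end

end Pool.Agent.Helper37K9.CI
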