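import Pool.Agent.Helper37K9.CI.Form
import Pool.Agent.Helper37K9.CI.Lines
import Pool.Agent.Helper37K9.CI.Cong2
import Pool.Agent.Helper37K9.CI.Sec
import Pool.Agent.Y184.NT.Top
import Pool.Agent.Y944.NT.NLG
import Pool.Agent.Y944.NT.VertG

/-!
Varieties of geometric genus zero which are dominated by a smooth complete intersection.
-/

set_option autoImplicit false
set_option linter.overlappingInstances false
set_option linter.unusedSectionVars false

open FF Polynomial Cardinal Pool.Agent.W602.GT Pool.Agent.W603.LV Pool.Agent.Y184.NT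
open Pool.Agent.TH145.SP (SmoothCI jac aeval_jac exists_minor_ne)
open Pool.Agent.W619.PQ (IsUniruled)

namespace Pool.Agent.Helper37K9.CI

section

variable {L K : Type} [Field L] [Field K] [Algebra ℂ L] [Algebra ℂ K] [Algebra L K]
  [IsScalarTower ℂ L K] [FiniteDimensional L K] [hessK : Algebra.EssFiniteType ℂ K] {n N m : ℕ}

/-- the fibres are collinear -/
theorem exists_line (hL : Algebra.trdeg ℂ L = n) {x : Fin N → K} {j0 : Fin N} (hj0 : x j0 = 1)
    (hgen : IntermediateField.adjoin ℂ (Set.range x) = ⊤)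
    {ω : (Fin n → Derivation ℂ K K) → K} (hω : IsPluri 1 ω) (hω0 : ∃ D, ω D ≠ 0)
    (hreg : ∀ (f : Fin m → Fin N) (P : Place ℂ K), Divisorial n P →
      RegAt P (fun D => (∏ k, x (f k)) * ω D))
    (hpg : ∀ ω : (Fin n → Derivation ℂ L L) → L, IsPluri 1 ω →
      (∀ P : Place ℂ L, Divisorial n P → RegAt P ω) → ∀ D, ω D = 0)
    (hr : Module.finrank L K ≤ 2 * m + 1) :
    m + 2 ≤ Module.finrank L K ∧ ∃ (a b : Fin N → L) (τ : K),
      (∀ j, x j = algebraMap L K (a j) + τ * algebraMap L K (b j)) ∧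
      IntermediateField.adjoin L {τ} = ⊤ ∧ LinearIndependent L ![a, b] := by
  have hessL : Algebra.EssFiniteType ℂ L := Pool.Agent.TH466.QG.ess_below (K := K)
  have hcL : CharZero L := charZero_of_injective_algebraMap (algebraMap ℂ L).injective
  obtain ⟨z, E, hz, hE⟩ := Pool.Agent.Y172.exists_crd (k := ℂ) (K := L) hL
  choose E' hE' using fun i => Pool.Agent.Y172.exists_lift (k := ℂ) (K := L) (L := K) hL (E i)
  have hzK : IsTranscendenceBasis ℂ (fun j => algebraMap L K (z j)) := hz.algebraMap_comp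
  have hEKd := Pool.Agent.Y172.lift_dual hE hE'
  have hωE : ω E' ≠ 0 := by
    intro h0
    obtain ⟨D, hD⟩ := hω0
    apply hD
    rw [Pool.Agent.Y172.pluri_coord hzK hEKd hω D, h0, mul_zero]
  have hp : ∀ f : Fin m → Fin N, IsPluri 1 (fun D => (∏ k, x (f k)) * ω D) := by
    intro f A D
    change (∏ k, x (f k)) * ω (fun i => ∑ j, A i j • D j) = _
    rw [hω A D]
    ring
  have htrc : ∀ f : Fin m → Fin N, Algebra.trace L K ((∏ k, x (f k)) * ω E') = 0 := fun f =>
    Pool.Agent.Y692.NT.t_Tr L K n hL hpg _ (hp f) (hreg f) E E' hE'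
  have hgenL : IntermediateField.adjoin L (Set.range x) = ⊤ := by
    rw [eq_top_iff]
    intro y _
    have h1 : y ∈ IntermediateField.adjoin ℂ (Set.range x) := by
      rw [hgen]
      trivial
    have h2 : IntermediateField.adjoin ℂ (Set.range x) ≤
        (IntermediateField.adjoin L (Set.range x)).restrictScalars ℂ := by
      rw [IntermediateField.adjoin_le_iff]
      exact IntermediateField.subset_adjoin L _
    exact h2 h1
  exact Pool.Agent.Y614.NT.stLine Pool.Agent.Y153.NT.stCB L K N m x j0 hj0 hgenL (ω E') hωE htrc hr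

theorem aeval_tau {x : Fin N → K} {a b : Fin N → L} {τ : K}
    (hx : ∀ j, x j = algebraMap L K (a j) + τ * algebraMap L K (b j))
    (G : MvPolynomial (Fin N) ℂ) : aeval τ (restr G a b) = MvPolynomial.aeval x G := by
  have h5 := MvPolynomial.comp_aeval_apply
    (φ := (aeval τ : L[X] →ₐ[L] K).restrictScalars ℂ) (lin a b) G
  have h6 : (fun j => (aeval τ : L[X] →ₐ[L] K).restrictScalars ℂ (lin a b j)) = x := by
    funext j
    change aeval τ (lin a b j) = _
    rw [aeval_lin, hx]
  rw [h6] at h5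
  exact h5

/-- the lines through the fibres are not contained in the variety -/
theorem not_all (hNLG : StNLG) {κ : Type} [Fintype κ] [DecidableEq κ]
    {F : κ → MvPolynomial (Fin (N + 1)) ℂ} {d : κ → ℕ} (hd : ∀ k, (F k).IsHomogeneous (d k))
    (hdim : n + Fintype.card κ = N) (hL : Algebra.trdeg ℂ L = n) (hK : Algebra.trdeg ℂ K = n)
    {ω : (Fin n → Derivation ℂ K K) → K} (hω : IsPluri 1 ω)
    (hωr : ∀ P : Place ℂ K, Divisorial n P → RegAt P ω) (hω0 : ∃ D, ω D ≠ 0)
    {x : Fin (N + 1) → K} {j0 : Fin (N + 1)} (hj0 : x j0 = 1)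
    (hgen : IntermediateField.adjoin ℂ (Set.range x) = ⊤)
    (hgr : LinearIndependent K fun (k : κ) (j : Fin (N + 1)) =>
      MvPolynomial.aeval x (MvPolynomial.pderiv j (F k))) {a b : Fin (N + 1) → L} {τ : K}
    (hx : ∀ j, x j = algebraMap L K (a j) + τ * algebraMap L K (b j))
    (hτ : IntermediateField.adjoin L {τ} = ⊤) (hr : 2 ≤ Module.finrank L K)
    (hab : LinearIndependent L ![a, b]) : ∃ k, restr (F k) a b ≠ 0 := by
  classical
  have hessL : Algebra.EssFiniteType ℂ L := Pool.Agent.TH466.QG.ess_below (K := K)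
  by_contra hcon
  push Not at hcon
  -- the coordinate `j0`
  have hb0 : b j0 = 0 := by
    by_contra hb
    have h1 : τ = algebraMap L K ((1 - a j0) / b j0) := by
      have h2 := hx j0
      rw [hj0] at h2
      have h3 : algebraMap L K (b j0) ≠ 0 := by rwa [Ne, map_eq_zero]
      rw [map_div₀, map_sub, map_one, eq_div_iff h3]
      linear_combination -h2
    have h2 : (⊥ : IntermediateField L K) = ⊤ := by
      rw [← hτ, eq_comm, IntermediateField.adjoin_simple_eq_bot_iff, h1]
      exact IntermediateField.algebraMap_mem _ _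
    have h3 : Module.finrank L K = 1 := by
      rw [← IntermediateField.finrank_top', ← h2, IntermediateField.finrank_bot]
    omega
  have ha0 : a j0 = 1 := by
    have h2 := hx j0
    rw [hj0, hb0, map_zero, mul_zero, add_zero] at h2
    apply (algebraMap L K).injective
    rw [← h2, map_one]
  obtain ⟨y, hy⟩ : ∃ y : Fin (N + 1) → RatFunc L, y = fun j => io (lin a b j) := ⟨_, rfl⟩
  have hyG : ∀ G : MvPolynomial (Fin (N + 1)) ℂ, MvPolynomial.aeval y G = io (restr G a b) := by
    intro G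
    rw [hy, io_restr]
  have hyj : y j0 = 1 := by
    rw [hy]
    simp only [Pool.Agent.Y184.NT.lin, ha0, hb0, io]
    simp
  have hspec : ∀ G : MvPolynomial (Fin (N + 1)) ℂ, MvPolynomial.aeval y G = 0 →
      MvPolynomial.aeval x G = 0 := by
    intro G hG
    rw [hyG] at hG
    have h1 : restr G a b = 0 := io_inj (by rw [hG, io, map_zero])
    rw [← aeval_tau hx, h1, map_zero]
  obtain ⟨S, hS⟩ := exists_jac hgr
  have hind : LinearIndependent (RatFunc L) fun (k : κ) (j : Fin (N + 1)) =>
      MvPolynomial.aeval y (MvPolynomial.pderiv j (F k)) :=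
    ind_of_jac (S := S) fun h0 => hS (hspec _ h0)
  have htr := trdeg_le_of_grad hyj hd (fun k => by rw [hyG, hcon k, io, map_zero]) hind hdim
  obtain ⟨s, hs⟩ := exists_coord x (d := n) (by
    rw [hgen]
    have h1 : Algebra.trdeg ℂ (⊤ : IntermediateField ℂ K) = Algebra.trdeg ℂ K :=
      IntermediateField.topEquiv.trdeg_eq
    rw [h1, hK])
  obtain ⟨z, E, hz, -⟩ := Pool.Agent.Y172.exists_crd (k := ℂ) (K := L) hL
  have hb : b ≠ 0 := by
    have h1 := hab.ne_zero 1
    simpa using h1
  obtain ⟨G, hG, hR⟩ := nly hNLG L K K n (N + 1) n hK z hz ω hω hωr hω0 x hgen a b τ hb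
    (fun j => hx j)
  have h1 := spec_eq (y := y) (z := x) hspec htr hs G hG
  rw [hyG] at h1
  exact hR (io_inj (by rw [h1, io, map_zero]))

omit [FiniteDimensional L K] hessK in
/-- gradients at proportional points -/
theorem ind_scale {κ : Type} [Fintype κ] {F : κ → MvPolynomial (Fin N) ℂ} {d : κ → ℕ}
    (hd : ∀ k, (F k).IsHomogeneous (d k)) {x x' : Fin N → K} {μ : K} (hμ : μ ≠ 0)
    (hx : x = fun j => μ * x' j)
    (hgr : LinearIndependent K fun (k : κ) (j : Fin N) =>
      MvPolynomial.aeval x (MvPolynomial.pderiv j (F k))) :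
    LinearIndependent K fun (k : κ) (j : Fin N) =>
      MvPolynomial.aeval x' (MvPolynomial.pderiv j (F k)) := by
  rw [Fintype.linearIndependent_iff] at hgr ⊢
  intro g hg k
  have h1 := hgr (fun k => g k * (μ ^ (d k - 1))⁻¹) (by
    rw [← hg]
    refine Finset.sum_congr rfl fun k _ => ?_
    funext j
    rw [Pi.smul_apply, Pi.smul_apply, smul_eq_mul, smul_eq_mul, hx,
      Pool.Agent.Y988.NT.aeval_smul_form (hd k).pderiv]
    have h2 := pow_ne_zero (d k - 1) hμ
    field_simp) k
  exact (mul_eq_zero.1 h1).resolve_right (inv_ne_zero (pow_ne_zero _ hμ))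

/-- **Varieties of geometric genus zero which are dominated by a complete intersection are
components of hyperplane sections of the complete intersection of all but one of the
hypersurfaces.** -/
theorem structure_thm (hn : 1 ≤ n) {κ : Type} [Fintype κ] [DecidableEq κ]
    {F : κ → MvPolynomial (Fin (N + 2)) ℂ} {d : κ → ℕ} (hd : ∀ k, (F k).IsHomogeneous (d k))
    (hdim : n + Fintype.card κ = N + 1)
    {x : Fin (N + 2) → K} (hF : ∀ k, MvPolynomial.aeval x (F k) = 0) {j0 : Fin (N + 2)}
    (hj0 : x j0 = 1) (hgen : IntermediateField.adjoin ℂ (Set.range x) = ⊤)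
    (htr : Algebra.trdeg ℂ K = n)
    (hgr : LinearIndependent K fun (k : κ) (j : Fin (N + 2)) =>
      MvPolynomial.aeval x (MvPolynomial.pderiv j (F k)))
    {ω : (Fin n → Derivation ℂ K K) → K} (hω : IsPluri 1 ω) (hω0 : ∃ D, ω D ≠ 0)
    (hreg : ∀ (f : Fin m → Fin (N + 2)) (P : Place ℂ K), Divisorial n P →
      RegAt P (fun D => (∏ k, x (f k)) * ω D))
    (hpg : ∀ ω : (Fin n → Derivation ℂ L L) → L, IsPluri 1 ω →
      (∀ P : Place ℂ L, Divisorial n P → RegAt P ω) → ∀ D, ω D = 0)
    (hr : Module.finrank L K ≤ 2 * m + 1)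
    (h1 : ∀ k l, k ≠ l → d k < Module.finrank L K ∨ d l < Module.finrank L K)
    (h2 : ∀ k, d k ≤ Module.finrank L K + m + 1) :
    m + 2 ≤ Module.finrank L K ∧ ∃ k, Module.finrank L K ≤ d k ∧
      ∃ (H : MvPolynomial (Fin (N + 2)) ℂ) (z : Fin (N + 2) → L) (i : Fin (N + 2)),
        H.IsHomogeneous 1 ∧ H ≠ 0 ∧ z i = 1 ∧ IntermediateField.adjoin ℂ (Set.range z) = ⊤ ∧
        (∀ j, MvPolynomial.aeval z (Function.update F k H j) = 0) ∧
        LinearIndependent L fun (j : κ) (l : Fin (N + 2)) =>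
          MvPolynomial.aeval z (MvPolynomial.pderiv l (Function.update F k H j)) := by
  classical
  have hessL : Algebra.EssFiniteType ℂ L := Pool.Agent.TH466.QG.ess_below (K := K)
  have hL : Algebra.trdeg ℂ L = n := trdeg_below (K := K) htr
  have hNLG : StNLG := Pool.Agent.Y944.NT.stNLG
    (Pool.Agent.Y297.NT.t_Pull Pool.Agent.Y71.NT.t_abh) Pool.Agent.Y929.NT.t_W0
    Pool.Agent.Y888.NT.stDer
  have hVert : StVertG := Pool.Agent.Y944.NT.stVertG hNLG
  obtain ⟨s, hs⟩ := exists_coord x (d := n) (by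
    rw [hgen]
    have h1 : Algebra.trdeg ℂ (⊤ : IntermediateField ℂ K) = Algebra.trdeg ℂ K :=
      IntermediateField.topEquiv.trdeg_eq
    rw [h1, htr])
  have hωr : ∀ P : Place ℂ K, Divisorial n P → RegAt P ω := by
    intro P hP
    have h1 := hreg (fun _ => j0) P hP
    simp only [hj0, Finset.prod_const_one, one_mul] at h1
    exact h1
  obtain ⟨hrm, a, b, τ, hxab, hτ, hab⟩ := exists_line hL hj0 hgen hω hω0 hreg hpg hr
  refine ⟨hrm, ?_⟩
  have hj00 : x j0 ≠ 0 := by
    rw [hj0]
    exact one_ne_zero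
  obtain ⟨k, hk⟩ := not_all hNLG hd hdim hL htr hω hωr hω0 hj0 hgen hgr hxab hτ (by omega) hab
  -- degrees
  have hdeg : ∀ {σ : K} {a b : Fin (N + 2) → L} {x : Fin (N + 2) → K},
      IntermediateField.adjoin L {σ} = ⊤ →
      (∀ j, x j = algebraMap L K (a j) + σ * algebraMap L K (b j)) → ∀ j,
      MvPolynomial.aeval x (F j) = 0 → restr (F j) a b ≠ 0 → ∃ h : L[X], h ≠ 0 ∧
      restr (F j) a b = minpoly L σ * h ∧ Module.finrank L K + h.natDegree ≤ d j := by
    intro σ a b x hσ hx j hFj h0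
    have h3 : minpoly L σ ∣ restr (F j) a b := by
      rw [minpoly.dvd_iff, aeval_tau hx, hFj]
    obtain ⟨h, hh⟩ := h3
    have hh0 : h ≠ 0 := by
      rintro rfl
      rw [mul_zero] at hh
      exact h0 hh
    have hσi : IsIntegral L σ := Algebra.IsIntegral.isIntegral σ
    have h4 : (minpoly L σ).natDegree = Module.finrank L K := by
      rw [← IntermediateField.adjoin.finrank hσi, hσ, IntermediateField.finrank_top']
    have h5 := (Pool.Agent.Y692.NT.restr_coeff (hd j) a b).1
    rw [hh, natDegree_mul (minpoly.ne_zero hσi) hh0, h4] at h5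
    exact ⟨h, hh0, hh, h5⟩
  have hothers : ∀ j, j ≠ k → restr (F j) a b = 0 := by
    intro j hj
    by_contra h0
    obtain ⟨h3, -, -, h4⟩ := hdeg hτ hxab j (hF j) h0
    obtain ⟨h5, -, -, h6⟩ := hdeg hτ hxab k (hF k) hk
    rcases h1 j k hj with h7 | h7 <;> omega
  refine ⟨k, ?_, ?_⟩
  · obtain ⟨h3, -, -, h4⟩ := hdeg hτ hxab k (hF k) hk
    omega
  -- the new coordinates
  obtain ⟨a', b', τ', μ, hμ, hab', hFb, hτ', hsh, hz'⟩ := shiftN hab hτ (by omega) hk
  obtain ⟨x', hx'⟩ : ∃ x' : Fin (N + 2) → K,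
    ∀ j, x' j = algebraMap L K (a' j) + τ' * algebraMap L K (b' j) := ⟨_, fun _ => rfl⟩
  have hxx' : ∀ j, x j = μ * x' j := fun j => by rw [hxab, hsh, hx']
  have hxf : x = fun j => μ * x' j := funext hxx'
  have hx'0 : x' j0 ≠ 0 := by
    intro h0
    rw [hxx', h0, mul_zero] at hj00
    exact hj00 rfl
  have hrat : ∀ j, x' j / x' j0 = x j := by
    intro j
    have h3 : x' j / x' j0 = x j / x j0 := by
      rw [hxx' j, hxx' j0, mul_div_mul_left _ _ hμ]
    rw [h3, hj0, div_one]
  have hFx' : ∀ k, MvPolynomial.aeval x' (F k) = 0 := by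
    intro k
    have h1 := hF k
    rw [hxf, Pool.Agent.Y988.NT.aeval_smul_form (hd k)] at h1
    exact (mul_eq_zero.1 h1).resolve_left (pow_ne_zero _ hμ)
  have hk' : restr (F k) a' b' ≠ 0 := by
    intro h0
    apply hFb
    rw [← (Pool.Agent.Y692.NT.restr_coeff (hd k) a' b').2, h0, coeff_zero]
  obtain ⟨h, hh0, hh, hhd⟩ := hdeg hτ' hx' k (hFx' k) hk'
  have hhd' : h.natDegree ≤ m + 1 := by
    have := h2 k
    omega
  have hτi : IsIntegral L τ' := Algebra.IsIntegral.isIntegral τ'
  have hhτ : aeval τ' h ≠ 0 := by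
    intro h0
    have h3 : minpoly L τ' ∣ h := (minpoly.dvd_iff).2 h0
    have h4 := natDegree_le_of_dvd h3 hh0
    have h5 : (minpoly L τ').natDegree = Module.finrank L K := by
      rw [← IntermediateField.adjoin.finrank hτi, hτ', IntermediateField.finrank_top']
    omega
  obtain ⟨z, E, hz, hE⟩ := Pool.Agent.Y172.exists_crd (k := ℂ) (K := L) hL
  have hcong := congN (m := m) hNLG hVert Pool.Agent.Y929.NT.t_W0 Pool.Agent.Y888.NT.stDer hn hL htr
    hω hω0 hx'0 (by simp only [hrat]; exact hgen) (by simp only [hrat]; exact hreg)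
    hpg (hd k) hab' hFb hx' hh hhτ hhd' hz hE (s := s) (by simp only [hrat]; exact hs)
  -- the minors of the other equations
  have hind : LinearIndependent K fun (j : {j // j ≠ k}) (l : Fin (N + 2)) =>
      MvPolynomial.aeval x' (MvPolynomial.pderiv l (F j.1)) :=
    (ind_scale hd hμ hxf hgr).comp Subtype.val Subtype.val_injective
  obtain ⟨S2, hS2⟩ := exists_jac (G := fun j : {j // j ≠ k} => F j.1) hind
  exact section_data (k := k) hd hab' hcong (fun j hj => hz' (F j) (d j) (hd j) (hothers j hj))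
    (Q := restr (jac (fun j : {j // j ≠ k} => F j.1) S2) a' b')
    (fun h0 => hS2 (by rw [← aeval_tau hx', h0, map_zero]))
    (fun c hc => ind_of_jac (S := S2) (by rwa [restr_eval] at hc))

end

/-- the varieties in `structure_thm` are uniruled -/
theorem uniruled_thm {L : Type} [Field L] [Algebra ℂ L] {n N : ℕ}
    {κ : Type} [Fintype κ] [DecidableEq κ] {F : κ → MvPolynomial (Fin (N + 2)) ℂ} {d : κ → ℕ}
    (hd : ∀ k, (F k).IsHomogeneous (d k)) (hdim : n + Fintype.card κ = N + 1)
    (hL : Algebra.trdeg ℂ L = n) {k : κ} {H : MvPolynomial (Fin (N + 2)) ℂ}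
    (hH : H.IsHomogeneous 1) {z : Fin (N + 2) → L} {i : Fin (N + 2)} (hzi : z i = 1)
    (hgen : IntermediateField.adjoin ℂ (Set.range z) = ⊤)
    (hz : ∀ j, MvPolynomial.aeval z (Function.update F k H j) = 0)
    (hind : LinearIndependent L fun (j : κ) (l : Fin (N + 2)) =>
      MvPolynomial.aeval z (MvPolynomial.pderiv l (Function.update F k H j)))
    (hk : ∑ j, d j + 1 ≤ N + d k) : IsUniruled ℂ L n := by
  classical
  have hsum : ∑ j, Function.update d k 1 j + d k = ∑ j, d j + 1 := by
    rw [Finset.sum_update_of_mem (Finset.mem_univ k), ← Finset.add_sum_erase _ d (Finset.mem_univ k),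
      ← Finset.erase_eq]
    omega
  refine uniruled_of_low_degree hL hgen hzi (G := Function.update F k H)
    (e := Function.update d k 1) (fun j => ?_) hz hind hdim (by omega)
  by_cases hj : j = k
  · subst hj
    rw [Function.update_self, Function.update_self]
    exact hH
  · rw [Function.update_of_ne hj, Function.update_of_ne hj]
    exact hd j

/-- the equivalences -/
theorem tfae_of {L : Type} [Field L] [Algebra ℂ L] {n : ℕ} [Algebra.EssFiniteType ℂ L]
    (htr : Algebra.trdeg ℂ L = n)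
    (hmain : (∀ ω : (Fin n → Derivation ℂ L L) → L, IsPluri 1 ω →
      (∀ P : Place ℂ L, Divisorial n P → RegAt P ω) → ∀ D, ω D = 0) → IsUniruled ℂ L n) :
    [(∀ ω : (Fin n → Derivation ℂ L L) → L, IsPluri 1 ω →
      (∀ P : Place ℂ L, Divisorial n P → RegAt P ω) → ∀ D, ω D = 0),
      ¬ KodGe ℂ L n (fun _ => False) 0, ¬ Psef ℂ L n (fun _ => False),
      IsUniruled ℂ L n].TFAE := by
  tfae_have 1 → 4 := hmain
  tfae_have 4 → 3 := fun h h' =>
    (Pool.Agent.W619.Y.uniruled_neg n htr h).1 ((Pool.Agent.TH466.QG.psef_iff n).1 h')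
  tfae_have 3 → 2 := fun h h' => h (psef_of_kodGe h')
  tfae_have 2 → 1 := by
    intro h ω hω hreg D
    by_contra hne
    refine h ⟨1, one_pos, fun _ => ω, fun _ => ⟨hω, fun P hP D' hD' => ?_, fun P hP _ => hreg P hP⟩,
      D, hne, ?_⟩
    · exact hreg P hP D' fun i => Pool.Agent.TH466.QG.derReg_of_log (hD' i)
    · exact algebraicIndependent_empty_type
  tfae_finish

end Pool.Agent.Helper37K9.CI
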