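import Mathlib

/-!
Specialisations of points of the same dimension.
-/

set_option autoImplicit false

open Cardinal

namespace Pool.Agent.Helper37K9.CI

/-- a homomorphism which keeps a transcendence basis independent is injective -/
theorem inj_of_algInd {A B ι : Type*} [CommRing A] [IsDomain A] [Algebra ℂ A]
    [CommRing B] [Algebra ℂ B] (φ : A →ₐ[ℂ] B) (t : ι → A)
    (halg : Algebra.IsAlgebraic (Algebra.adjoin ℂ (Set.range t)) A)
    (hφ : AlgebraicIndependent ℂ (fun i => φ (t i))) : Function.Injective φ := by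
  rw [injective_iff_map_eq_zero]
  intro g hg
  by_contra hne
  obtain ⟨q, hq0, hq⟩ := (halg.isAlgebraic g).exists_nonzero_coeff_and_aeval_eq_zero
    (mem_nonZeroDivisors_of_ne_zero hne)
  apply hq0
  obtain ⟨P, hP⟩ : ∃ P : MvPolynomial ι ℂ, MvPolynomial.aeval t P = (q.coeff 0 : A) := by
    have h : (q.coeff 0 : A) ∈ (MvPolynomial.aeval t : MvPolynomial ι ℂ →ₐ[ℂ] A).range := by
      rw [← Algebra.adjoin_range_eq_range_aeval]
      exact (q.coeff 0).2
    exact h
  have h1 : φ (q.coeff 0 : A) = 0 := by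
    have h2 := congrArg φ hq
    rw [map_zero, Polynomial.aeval_eq_sum_range, map_sum, Finset.sum_range_succ'] at h2
    have h3 : ∑ k ∈ Finset.range q.natDegree, φ (q.coeff (k + 1) • g ^ (k + 1)) = 0 := by
      refine Finset.sum_eq_zero fun k _ => ?_
      rw [Algebra.smul_def, map_mul, map_pow, hg, zero_pow (Nat.succ_ne_zero k), mul_zero]
    rw [h3, zero_add, pow_zero, Algebra.smul_def, mul_one] at h2
    exact h2
  have h2 : MvPolynomial.aeval (fun i => φ (t i)) P = 0 := by
    rw [← h1, ← hP]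
    have := MvPolynomial.comp_aeval_apply (φ := φ) t P
    exact this.symm
  have h3 : P = 0 := (injective_iff_map_eq_zero _).1 hφ P h2
  rw [h3, map_zero] at hP
  exact Subtype.ext hP.symm

/-- a specialisation of the same dimension is an isomorphism -/
theorem spec_eq {R S : Type} [Field R] [Algebra ℂ R] [Field S] [Algebra ℂ S] {m d : ℕ}
    {y : Fin m → R} {z : Fin m → S}
    (h : ∀ G : MvPolynomial (Fin m) ℂ, MvPolynomial.aeval y G = 0 → MvPolynomial.aeval z G = 0)
    (hy : Algebra.trdeg ℂ (IntermediateField.adjoin ℂ (Set.range y)) ≤ d)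
    {s : Fin d → Fin m} (hs : AlgebraicIndependent ℂ (fun i => z (s i)))
    (G : MvPolynomial (Fin m) ℂ) (hG : MvPolynomial.aeval z G = 0) :
    MvPolynomial.aeval y G = 0 := by
  let f : MvPolynomial (Fin m) ℂ →ₐ[ℂ] R := MvPolynomial.aeval y
  let g0 : (MvPolynomial (Fin m) ℂ ⧸ RingHom.ker f) →ₐ[ℂ] S :=
    Ideal.Quotient.liftₐ (RingHom.ker f) (MvPolynomial.aeval z) (fun G hG => h G hG)
  let e := Ideal.quotientKerEquivRange f
  let g : f.range →ₐ[ℂ] S := g0.comp (e.symm : f.range →ₐ[ℂ] _)
  have hgf : ∀ G : MvPolynomial (Fin m) ℂ, g ⟨f G, ⟨G, rfl⟩⟩ = MvPolynomial.aeval z G := by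
    intro G
    have h2 : e (Ideal.Quotient.mk (RingHom.ker f) G) = ⟨f G, ⟨G, rfl⟩⟩ := rfl
    rw [← h2]
    show g0 (e.symm (e _)) = _
    rw [AlgEquiv.symm_apply_apply]
    rfl
  have hle : Algebra.trdeg ℂ f.range ≤ d := by
    refine le_trans ?_ hy
    have hmem : ∀ a : f.range, (a : R) ∈ IntermediateField.adjoin ℂ (Set.range y) := by
      rintro ⟨_, ⟨G, rfl⟩⟩
      have h1 : Algebra.adjoin ℂ (Set.range y) ≤
          (IntermediateField.adjoin ℂ (Set.range y)).toSubalgebra :=
        IntermediateField.algebra_adjoin_le_adjoin ℂ _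
      apply h1
      rw [Algebra.adjoin_range_eq_range_aeval]
      exact ⟨G, rfl⟩
    let ι : f.range →ₐ[ℂ] IntermediateField.adjoin ℂ (Set.range y) :=
      (f.range.val).codRestrict (IntermediateField.adjoin ℂ (Set.range y)).toSubalgebra hmem
    refine trdeg_le_of_injective ι ?_
    intro a b hab
    have h1 := congrArg (fun w : IntermediateField.adjoin ℂ (Set.range y) => (w : R)) hab
    exact Subtype.ext h1
  let t : Fin d → f.range := fun i => ⟨f (MvPolynomial.X (s i)), ⟨_, rfl⟩⟩
  have hgt : (fun i => g (t i)) = fun i => z (s i) := by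
    funext i
    rw [hgf, MvPolynomial.aeval_X]
  have hgt' : AlgebraicIndependent ℂ (fun i => g (t i)) := by rw [hgt]; exact hs
  have ht : AlgebraicIndependent ℂ t := AlgebraicIndependent.of_comp g hgt'
  have hb : IsTranscendenceBasis ℂ t := ht.isTranscendenceBasis_of_trdeg_le_of_finite (by
    simpa using hle)
  have hinj := inj_of_algInd g t hb.isAlgebraic hgt'
  have h1 : g ⟨f G, ⟨G, rfl⟩⟩ = 0 := by rw [hgf, hG]
  rw [← map_zero g] at h1
  exact congrArg Subtype.val (hinj h1)

end Pool.Agent.Helper37K9.CI
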