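import Pool.Agent.Helper37K9.CI.Indep
import Pool.Agent.Helper386.D5V.Helper386_FF_RR

/-!
Varieties which are covered by lines are uniruled.
-/

set_option autoImplicit false
set_option linter.overlappingInstances false

open FF Polynomial IntermediateField

namespace Pool.Agent.Helper37K9.CI

/-- the point `a + T b` of the line through `a` and `b` -/
noncomputable def ln {K : Type} [CommRing K] {N : ℕ} (a b : Fin N → K) (j : Fin N) : K[X] :=
  C (a j) + X * C (b j)

/-- homomorphisms from a field generated by finitely many elements -/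
theorem exists_hom {K R : Type} [Field K] [Field R] [Algebra ℂ K] [Algebra ℂ R] {N : ℕ}
    (x : Fin N → K) (u : Fin N → R) (hx : IntermediateField.adjoin ℂ (Set.range x) = ⊤)
    (h : ∀ G : MvPolynomial (Fin N) ℂ, MvPolynomial.aeval x G = 0 ↔
      MvPolynomial.aeval u G = 0) : ∃ φ : K →ₐ[ℂ] R, ∀ j, φ (x j) = u j := by
  let f : MvPolynomial (Fin N) ℂ →ₐ[ℂ] K := MvPolynomial.aeval x
  have hfr : IsFractionRing f.range K := by
    have : FaithfulSMul f.range K :=
      (faithfulSMul_iff_algebraMap_injective f.range K).mpr Subtype.val_injective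
    refine IsFractionRing.of_field f.range K fun z => ?_
    have hz : z ∈ IntermediateField.adjoin ℂ (Set.range x) := by
      rw [hx]
      exact IntermediateField.mem_top
    obtain ⟨r, s, hrs⟩ := (IntermediateField.mem_adjoin_range_iff ℂ x z).mp hz
    exact ⟨⟨f r, ⟨r, rfl⟩⟩, ⟨f s, ⟨s, rfl⟩⟩, hrs⟩
  let g0 : (MvPolynomial (Fin N) ℂ ⧸ RingHom.ker f) →ₐ[ℂ] R :=
    Ideal.Quotient.liftₐ (RingHom.ker f) (MvPolynomial.aeval u) (fun G hG => (h G).mp hG)
  let e := Ideal.quotientKerEquivRange f
  let g : f.range →ₐ[ℂ] R := g0.comp (e.symm : f.range →ₐ[ℂ] _)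
  have hg0 : Function.Injective g0 := by
    rw [injective_iff_map_eq_zero]
    intro y hy
    obtain ⟨G, rfl⟩ := Ideal.Quotient.mk_surjective y
    have h1 : MvPolynomial.aeval u G = 0 := hy
    exact Ideal.Quotient.eq_zero_iff_mem.mpr ((h G).mpr h1)
  have hg : Function.Injective g := hg0.comp e.symm.injective
  refine ⟨IsFractionRing.liftAlgHom hg, fun j => ?_⟩
  have h1 : x j = algebraMap f.range K ⟨f (MvPolynomial.X j), ⟨_, rfl⟩⟩ := by
    show x j = f (MvPolynomial.X j)
    simp [f]
  have h2 : e (Ideal.Quotient.mk (RingHom.ker f) (MvPolynomial.X j)) =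
      ⟨f (MvPolynomial.X j), ⟨_, rfl⟩⟩ := rfl
  rw [h1, IsFractionRing.liftAlgHom_apply, IsFractionRing.lift_algebraMap, ← h2]
  show g0 (e.symm (e _)) = _
  rw [AlgEquiv.symm_apply_apply]
  show MvPolynomial.aeval u (MvPolynomial.X j) = u j
  simp

section red

variable {k Ω : Type} [Field k] [Field Ω] [Algebra k Ω] [Algebra ℂ k] [Algebra ℂ Ω]
  [IsScalarTower ℂ k Ω]

/-- the residue field as an algebra over `ℂ` -/
noncomputable abbrev algRF (P : Place k Ω) : Algebra ℂ P.RF :=
  ((algebraMap k P.RF).comp (algebraMap ℂ k)).toAlgebra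

theorem red_line (P : Place k Ω) {N : ℕ} {a b : Fin N → Ω} (ha : ∀ j, P.Reg (a j))
    (hb : ∀ j, P.Reg (b j)) (G : MvPolynomial (Fin N) ℂ)
    (hG : MvPolynomial.aeval (ln a b) G = 0) :
    let _ := algRF P
    MvPolynomial.aeval (ln (fun j => P.red (a j)) (fun j => P.red (b j))) G = 0 := by
  let _ := algRF P
  let ι : ℂ →+* P.O := (algebraMap ℂ Ω).codRestrict P.O (fun c => by
    rw [IsScalarTower.algebraMap_apply ℂ k Ω]
    exact P.reg_const _)
  let aO : Fin N → P.O := fun j => ⟨a j, ha j⟩
  let bO : Fin N → P.O := fun j => ⟨b j, hb j⟩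
  have key : ∀ {R' : Type} [CommRing R'] [Algebra ℂ R'] (σ : P.O →+* R')
      (hσ : ∀ c, σ (ι c) = algebraMap ℂ R' c),
      MvPolynomial.aeval (ln (fun j => σ (aO j)) (fun j => σ (bO j))) G =
        Polynomial.map σ (MvPolynomial.eval₂ (C.comp ι) (fun j => C (aO j) + X * C (bO j)) G) := by
    intro R' _ _ σ hσ
    rw [← Polynomial.coe_mapRingHom, MvPolynomial.hom_eval₂, MvPolynomial.aeval_def]
    congr 1
    · ext c
      · simp only [RingHom.comp_apply, Polynomial.coe_mapRingHom, Polynomial.map_C, hσ]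
        rfl
    · funext j
      simp [ln]
  have h1 := key (σ := P.O.subtype) (fun c => rfl)
  have h2 : (fun j => P.O.subtype (aO j)) = a := rfl
  have h3 : (fun j => P.O.subtype (bO j)) = b := rfl
  rw [h2, h3, hG] at h1
  have h4 : MvPolynomial.eval₂ (C.comp ι) (fun j => C (aO j) + X * C (bO j)) G = 0 := by
    apply Polynomial.map_injective P.O.subtype Subtype.val_injective
    rw [← h1, Polynomial.map_zero]
  have h5 := key (σ := P.resHom) (fun c => by
    change P.resHom _ = P.red (algebraMap k Ω (algebraMap ℂ k c))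
    have h6 : P.Reg (algebraMap k Ω (algebraMap ℂ k c)) := P.reg_const _
    rw [P.red_of_reg h6]
    congr 1
    apply Subtype.ext
    change algebraMap ℂ Ω c = _
    rw [IsScalarTower.algebraMap_apply ℂ k Ω])
  rw [h4, Polynomial.map_zero] at h5
  have h6 : (fun j => P.resHom (aO j)) = fun j => P.red (a j) := by
    funext j
    rw [P.red_of_reg (ha j)]
  have h7 : (fun j => P.resHom (bO j)) = fun j => P.red (b j) := by
    funext j
    rw [P.red_of_reg (hb j)]
  rw [h6, h7] at h5
  exact h5

end red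

section places

variable {k Ω : Type} [Field k] [Field Ω] [Algebra k Ω] [CharZero k] [IsFF k Ω]

/-- a zero of `f - γ` outside a finite set -/
theorem exists_zero_place {f : Ω} (hf : Transcendental k f) [Algebra ℂ k] {B : Set (Place k Ω)}
    (hB : B.Finite) : ∃ (γ : ℂ) (P : Place k Ω), P ∉ B ∧
      0 < P.ord (f - algebraMap k Ω (algebraMap ℂ k γ)) := by
  have h1 : ∀ γ : ℂ, ∃ P : Place k Ω, 0 < P.ord (f - algebraMap k Ω (algebraMap ℂ k γ)) := by
    intro γ
    have h2 : Transcendental k (f - algebraMap k Ω (algebraMap ℂ k γ)) := by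
      intro h3
      apply hf
      have h4 := h3.add (isAlgebraic_algebraMap (algebraMap ℂ k γ))
      rwa [sub_add_cancel] at h4
    obtain ⟨S, hS1, -, hS3⟩ := zeros h2
    have hfin := IsFF.finite h2
    have hpos : 0 < Module.finrank k⟮f - algebraMap k Ω (algebraMap ℂ k γ)⟯ Ω :=
      Module.finrank_pos
    have hne : S.Nonempty := by
      rw [Finset.nonempty_iff_ne_empty]
      rintro rfl
      simp at hS3
      omega
    obtain ⟨P, hP⟩ := hne
    exact ⟨P, (hS1 P).1 hP⟩
  choose P hP using h1
  have hinj : Function.Injective P := by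
    intro γ γ' h
    by_contra hne
    have h2 : 0 < (P γ).ord (f - algebraMap k Ω (algebraMap ℂ k γ')) := by
      rw [h]
      exact hP γ'
    have h3 := hP γ
    have h4 : (f - algebraMap k Ω (algebraMap ℂ k γ')) - (f - algebraMap k Ω (algebraMap ℂ k γ)) =
        algebraMap k Ω (algebraMap ℂ k (γ - γ')) := by
      rw [map_sub, map_sub]
      ring
    have h5 : algebraMap k Ω (algebraMap ℂ k (γ - γ')) ≠ 0 := by
      rw [Ne, map_eq_zero, map_eq_zero, sub_eq_zero]
      exact hne
    have h6 : f - algebraMap k Ω (algebraMap ℂ k γ') ≠ 0 := by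
      intro h0
      rw [h0, Place.ord_zero] at h2
      exact lt_irrefl _ h2
    have h7 : f - algebraMap k Ω (algebraMap ℂ k γ) ≠ 0 := by
      intro h0
      rw [h0, Place.ord_zero] at h3
      exact lt_irrefl _ h3
    have h8 := (P γ).ord_sub h6 h7 (by rw [h4]; exact h5)
    rw [h4] at h8
    have h9 : (P γ).ord (algebraMap k Ω (algebraMap ℂ k (γ - γ'))) = 0 :=
      (P γ).ord_eq_zero_of_isAlgebraic h5 (isAlgebraic_algebraMap _)
    rw [h9] at h8
    have h10 := lt_min h2 h3
    omega
  obtain ⟨Q, ⟨γ, rfl⟩, hQ⟩ := (Set.infinite_range_of_injective hinj).exists_notMem_finite hB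
  exact ⟨γ, P γ, hQ, hP γ⟩

end places

open scoped IntermediateField.algebraAdjoinAdjoin in
/-- a transcendental number among the coordinates, and a transcendence basis -/
theorem exists_basis {L : Type} [Field L] [Algebra ℂ L] {m n : ℕ} (hn : Algebra.trdeg ℂ L = n)
    {x : Fin m → L} (hgen : IntermediateField.adjoin ℂ (Set.range x) = ⊤) {j0 : Fin m}
    (hj0 : Transcendental ℂ (x j0)) :
    ∃ (n' : ℕ) (s : Fin n' → Fin m), n = n' + 1 ∧
      AlgebraicIndependent ℂ (fun o : Option (Fin n') => o.elim (x j0) fun i => x (s i)) := by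
  classical
  have h1 : Algebra.IsAlgebraic (IntermediateField.adjoin ℂ (Set.range x)) L := by
    rw [hgen]
    infer_instance
  have h2 : Algebra.IsAlgebraic (Algebra.adjoin ℂ (Set.range x)) L :=
    (IsFractionRing.comap_isAlgebraic_iff (A := Algebra.adjoin ℂ (Set.range x))
      (K := IntermediateField.adjoin ℂ (Set.range x)) (C := L)).2 h1
  obtain ⟨T, hT1, hT2, hT⟩ := exists_isTranscendenceBasis_between (R := ℂ) {x j0} (Set.range x)
    (by rw [Set.singleton_subset_iff]; exact ⟨j0, rfl⟩)
    (by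
      have h3 : AlgebraicIndependent ℂ (fun t : ({x j0} : Set L) => (t : L)) := by
        rw [algebraicIndependent_unique_type_iff]
        exact hj0
      exact h3)
  have hcard := hT.cardinalMk_eq_trdeg
  rw [hn] at hcard
  have hfin : Finite T := Cardinal.lt_aleph0_iff_finite.1 (by
    rw [hcard]
    exact Cardinal.natCast_lt_aleph0)
  have hfT : Fintype T := Fintype.ofFinite T
  rw [Cardinal.mk_fintype, Nat.cast_inj] at hcard
  let t0 : T := ⟨x j0, hT1 rfl⟩
  have hc1 : Fintype.card {t : T // t ≠ t0} = n - 1 := by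
    rw [Fintype.card_subtype_compl, hcard, Fintype.card_subtype_eq]
  have hn1 : 1 ≤ n := by
    rw [← hcard]
    exact Fintype.card_pos_iff.2 ⟨t0⟩
  obtain ⟨e⟩ : Nonempty (Fin (n - 1) ≃ {t : T // t ≠ t0}) :=
    ⟨(Fintype.equivFinOfCardEq hc1).symm⟩
  choose s hs using fun i : Fin (n - 1) => hT2 (e i : T).2
  refine ⟨n - 1, s, by omega, ?_⟩
  let g : Option (Fin (n - 1)) → T := fun o => o.elim t0 fun i => (e i : T)
  have hg : Function.Injective g := by
    intro o o' h
    rcases o with _ | i <;> rcases o' with _ | i'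
    · rfl
    · exact absurd h.symm (e i').2
    · exact absurd h (e i).2
    · have h3 : e i = e i' := Subtype.ext h
      rw [e.injective h3]
  have h4 := hT.1.comp g hg
  convert h4 using 1
  funext o
  rcases o with _ | i
  · rfl
  · exact hs i

end Pool.Agent.Helper37K9.CI
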