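import Pool.Agent.Helper37K9.CI.Unir
import Pool.Agent.W619.PQ.Defs

/-!
Varieties which are covered by lines are uniruled: the theorem.
-/

set_option autoImplicit false
set_option linter.overlappingInstances false

open FF Polynomial IntermediateField
open Pool.Agent.W619.PQ (IsUniruled)

namespace Pool.Agent.Helper37K9.CI

theorem transcendental_of_moving {L : Type} [Field L] [Algebra ℂ L] {m : ℕ} {x : Fin m → L}
    {Ω : Type} [Field Ω] [Algebra ℂ Ω] [Algebra L Ω] [IsScalarTower ℂ L Ω] {u : Fin m → Ω}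
    (h : ∀ G : MvPolynomial (Fin m) ℂ, MvPolynomial.aeval x G = 0 →
      MvPolynomial.aeval (ln (fun j => algebraMap L Ω (x j)) u) G = 0)
    {j0 : Fin m} (hj0 : u j0 ≠ 0) : Transcendental ℂ (x j0) := by
  intro halg
  have hint : IsIntegral ℂ (x j0) := halg.isIntegral
  obtain ⟨c, hc⟩ := minpoly.mem_range_of_degree_eq_one ℂ (x j0)
    (IsAlgClosed.degree_eq_one_of_irreducible ℂ (minpoly.irreducible hint))
  have h1 := h (MvPolynomial.X j0 - MvPolynomial.C c) (by
    rw [map_sub, MvPolynomial.aeval_X, MvPolynomial.aeval_C, hc, sub_self])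
  rw [map_sub, MvPolynomial.aeval_X, MvPolynomial.aeval_C] at h1
  have h2 := congrArg (fun p : Polynomial Ω => p.coeff 1) h1
  have h3 : (algebraMap ℂ (Polynomial Ω) c).coeff 1 = 0 := by
    have : algebraMap ℂ (Polynomial Ω) c = C (algebraMap ℂ Ω c) := rfl
    rw [this, coeff_C_ne_zero one_ne_zero]
  simp only [coeff_sub, h3, sub_zero, coeff_zero, ln, coeff_add, coeff_C_ne_zero one_ne_zero,
    zero_add] at h2
  rw [coeff_X_mul, coeff_C_zero] at h2
  exact hj0 h2

open scoped IntermediateField.algebraAdjoinAdjoin in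
/-- **Varieties which are covered by lines are uniruled.** -/
theorem uniruled_of_lines {L : Type} [Field L] [Algebra ℂ L] {m n : ℕ}
    (hn : Algebra.trdeg ℂ L = n) {x : Fin m → L}
    (hgen : IntermediateField.adjoin ℂ (Set.range x) = ⊤)
    {Ω : Type} [Field Ω] [Algebra ℂ Ω] [Algebra L Ω] [IsScalarTower ℂ L Ω]
    [FiniteDimensional L Ω] {u : Fin m → Ω} (hu : u ≠ 0)
    (h : ∀ G : MvPolynomial (Fin m) ℂ, MvPolynomial.aeval x G = 0 →
      MvPolynomial.aeval (ln (fun j => algebraMap L Ω (x j)) u) G = 0) :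
    IsUniruled ℂ L n := by
  classical
  obtain ⟨j0, hj0⟩ : ∃ j0, u j0 ≠ 0 := by
    by_contra hcon
    push Not at hcon
    exact hu (funext hcon)
  have htr0 := transcendental_of_moving h hj0
  obtain ⟨n', s, rfl, hs⟩ := exists_basis hn hgen htr0
  -- in the field `Ω`
  have hinj : Function.Injective (algebraMap L Ω) := (algebraMap L Ω).injective
  obtain ⟨fx, hfx⟩ : ∃ fx : Fin m → Ω, fx = fun j => algebraMap L Ω (x j) := ⟨_, rfl⟩
  rw [← hfx] at h
  have hsΩ : AlgebraicIndependent ℂ (fun o : Option (Fin n') => o.elim (fx j0) fun i => fx (s i)) := by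
    have h1 := hs.map' (f := IsScalarTower.toAlgHom ℂ L Ω) hinj
    convert h1 using 1
    funext o
    rcases o with _ | i
    · rw [hfx]; rfl
    · rw [hfx]; rfl
  have hb : AlgebraicIndependent ℂ (fun i : Fin n' => fx (s i)) :=
    hsΩ.comp (fun i => some i) (Option.some_injective _)
  have ht := (hb.option_iff_transcendental (fx j0)).1 hsΩ
  obtain ⟨k1, hk1⟩ : ∃ k1 : IntermediateField ℂ Ω,
    k1 = IntermediateField.adjoin ℂ (Set.range fun i => fx (s i)) := ⟨_, rfl⟩
  have htk : Transcendental k1 (fx j0) := by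
    rw [hk1]
    intro h2
    apply ht
    exact (IsFractionRing.isAlgebraic_iff (Algebra.adjoin ℂ (Set.range fun i => fx (s i)))
      (IntermediateField.adjoin ℂ (Set.range fun i => fx (s i))) Ω).2 h2
  have hbm : ∀ i, fx (s i) ∈ k1 := fun i => by
    rw [hk1]
    exact IntermediateField.subset_adjoin _ _ ⟨i, rfl⟩
  obtain ⟨bk, hbk⟩ : ∃ bk : Fin n' → k1, ∀ i, (bk i : Ω) = fx (s i) :=
    ⟨fun i => ⟨_, hbm i⟩, fun _ => rfl⟩
  have hbki : AlgebraicIndependent ℂ bk := by
    refine AlgebraicIndependent.of_comp k1.val ?_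
    have h1 : (k1.val : k1 → Ω) ∘ bk = fun i => fx (s i) := funext hbk
    rw [h1]
    exact hb
  -- the transcendence degrees
  have htrΩ : Algebra.trdeg ℂ Ω = (n' + 1 : ℕ) := by
    have h1 := trdeg_add_eq ℂ L (A := Ω)
    have h2 : Algebra.trdeg L Ω = 0 := by
      rw [trdeg_eq_zero_iff]
      infer_instance
    rw [h2, add_zero, hn] at h1
    exact h1.symm
  have htr1 : (n' : Cardinal) ≤ Algebra.trdeg ℂ k1 := by
    have h1 := hbki.cardinalMk_le_trdeg
    simpa using h1
  have htr2 : (1 : Cardinal) ≤ Algebra.trdeg k1 Ω := by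
    have h1 : AlgebraicIndependent k1 (fun _ : Unit => fx j0) := by
      rw [algebraicIndependent_unique_type_iff]
      exact htk
    have h2 := h1.cardinalMk_le_trdeg
    simpa using h2
  have hadd := trdeg_add_eq ℂ k1 (A := Ω)
  rw [htrΩ] at hadd
  obtain ⟨a, ha⟩ : ∃ a : ℕ, Algebra.trdeg ℂ k1 = a := by
    have h1 : Algebra.trdeg ℂ k1 ≤ (n' + 1 : ℕ) := by
      rw [← hadd]
      exact le_self_add
    exact Cardinal.lt_aleph0.1 (h1.trans_lt Cardinal.natCast_lt_aleph0)
  obtain ⟨c, hc⟩ : ∃ c : ℕ, Algebra.trdeg k1 Ω = c := by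
    have h1 : Algebra.trdeg k1 Ω ≤ (n' + 1 : ℕ) := by
      rw [← hadd]
      exact le_add_self
    exact Cardinal.lt_aleph0.1 (h1.trans_lt Cardinal.natCast_lt_aleph0)
  rw [ha] at htr1 hadd
  rw [hc] at htr2 hadd
  have hac : a = n' ∧ c = 1 := by
    have h1 : n' ≤ a := by exact_mod_cast htr1
    have h2 : 1 ≤ c := by exact_mod_cast htr2
    have h3 : a + c = n' + 1 := by exact_mod_cast hadd
    omega
  obtain ⟨rfl, rfl⟩ := hac
  have hessL : Algebra.EssFiniteType ℂ L := by
    rw [← IntermediateField.fg_top_iff, ← hgen]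
    exact ⟨Finset.univ.image x, by rw [Finset.coe_image, Finset.coe_univ, Set.image_univ]⟩
  have hessΩ : Algebra.EssFiniteType ℂ Ω := Algebra.EssFiniteType.comp ℂ L Ω
  have hess1 : Algebra.EssFiniteType k1 Ω := Algebra.EssFiniteType.of_comp ℂ k1 Ω
  have hck : CharZero k1 := charZero_of_injective_algebraMap (algebraMap ℂ k1).injective
  have hFF : IsFF k1 Ω := ⟨hess1, by rw [hc]; simp⟩
  -- the place
  have hBfin : ((⋃ j, {P : Place k1 Ω | P.ord (fx j) ≠ 0}) ∪
      ⋃ j, {P : Place k1 Ω | P.ord (u j) ≠ 0}).Finite :=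
    (Set.finite_iUnion fun j => finite_support _).union
      (Set.finite_iUnion fun j => finite_support _)
  obtain ⟨γ, P, hPB, hPγ⟩ := exists_zero_place htk hBfin
  rw [Set.mem_union, not_or] at hPB
  have hx0 : ∀ j, P.ord (fx j) = 0 := by
    intro j
    by_contra hne
    exact hPB.1 (Set.mem_iUnion.2 ⟨j, hne⟩)
  have hu0 : ∀ j, P.ord (u j) = 0 := by
    intro j
    by_contra hne
    exact hPB.2 (Set.mem_iUnion.2 ⟨j, hne⟩)
  have hxr : ∀ j, P.Reg (fx j) := fun j => Or.inr (hx0 j).ge
  have hur : ∀ j, P.Reg (u j) := fun j => Or.inr (hu0 j).ge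
  -- the residue field
  let _ : Algebra ℂ P.RF := algRF P
  have hst : IsScalarTower ℂ k1 P.RF := IsScalarTower.of_algebraMap_eq fun _ => rfl
  have hfinR : FiniteDimensional k1 P.RF := Module.finite_of_finrank_pos P.deg_pos
  have htrR : Algebra.trdeg ℂ P.RF = (a : ℕ) := by
    have h1 := trdeg_add_eq ℂ k1 (A := P.RF)
    have h2 : Algebra.trdeg k1 P.RF = 0 := by
      rw [trdeg_eq_zero_iff]
      infer_instance
    rw [h2, add_zero, ha] at h1
    exact h1.symm
  have hessk : Algebra.EssFiniteType ℂ k1 := by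
    rw [hk1]
    exact IntermediateField.essFiniteType_iff.2
      ⟨Finset.univ.image fun i => fx (s i), by
        rw [Finset.coe_image, Finset.coe_univ, Set.image_univ]⟩
  have hessR : Algebra.EssFiniteType ℂ P.RF := Algebra.EssFiniteType.comp ℂ k1 P.RF
  refine ⟨P.RF, inferInstance, inferInstance, hessR, by rw [htrR]; push_cast; rfl, ?_⟩
  -- the specialised line
  obtain ⟨z, hz⟩ : ∃ z : Fin m → (P.RF)[X],
    z = ln (fun j => P.red (fx j)) (fun j => P.red (u j)) := ⟨_, rfl⟩
  have hforw : ∀ G : MvPolynomial (Fin m) ℂ, MvPolynomial.aeval x G = 0 →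
      MvPolynomial.aeval z G = 0 := by
    intro G hG
    rw [hz]
    exact red_line P hxr hur G (h G hG)
  have hredb : ∀ i, P.red (fx (s i)) = algebraMap k1 P.RF (bk i) := by
    intro i
    rw [← hbk]
    rfl
  have hbR : AlgebraicIndependent ℂ (fun i => P.red (fx (s i))) := by
    have h1 := hbki.map' (f := IsScalarTower.toAlgHom ℂ k1 P.RF)
      (algebraMap k1 P.RF).injective
    convert h1 using 1
    funext i
    exact hredb i
  have hc0 : P.red (u j0) ≠ 0 := P.red_ne_zero hj0 (hu0 j0)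
  have hγ : P.red (fx j0) = algebraMap ℂ P.RF γ := by
    have h1 : P.Reg (algebraMap k1 Ω (algebraMap ℂ k1 γ)) := P.reg_const _
    have h2 : P.red (fx j0 - algebraMap k1 Ω (algebraMap ℂ k1 γ)) = 0 := by
      rw [P.red_eq_zero_iff (Or.inr hPγ.le)]
      exact Or.inr hPγ
    rw [P.red_sub (hxr j0) h1, sub_eq_zero] at h2
    exact h2
  have hind := indep_line (γ := γ) hbR (w := fun i => z (s i)) hc0 (by
    intro i
    rw [hz]
    simp [ln])
  have hind2 : AlgebraicIndependent ℂ (fun o : Option (Fin a) =>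
      algebraMap (P.RF)[X] (RatFunc P.RF) (z (o.elim j0 s))) := by
    have h1 := hind.map' (f := IsScalarTower.toAlgHom ℂ (P.RF)[X] (RatFunc P.RF))
      (IsFractionRing.injective (P.RF)[X] (RatFunc P.RF))
    convert h1 using 1
    funext o
    rcases o with _ | i
    · change algebraMap (P.RF)[X] (RatFunc P.RF) (z j0) =
        algebraMap (P.RF)[X] (RatFunc P.RF) (C (algebraMap ℂ P.RF γ) + X * C (P.red (u j0)))
      rw [hz, ln, hγ]
    · rfl
  have hind3 : AlgebraicIndependent ℂ (fun i : Fin (a + 1) =>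
      algebraMap (P.RF)[X] (RatFunc P.RF) (z (((finSuccEquiv a) i).elim j0 s))) :=
    hind2.comp _ (finSuccEquiv a).injective
  have hiff : ∀ G : MvPolynomial (Fin m) ℂ, MvPolynomial.aeval x G = 0 ↔
      MvPolynomial.aeval (fun j => algebraMap (P.RF)[X] (RatFunc P.RF) (z j)) G = 0 := by
    have h0 : ∀ G : MvPolynomial (Fin m) ℂ,
        MvPolynomial.aeval (fun j => algebraMap (P.RF)[X] (RatFunc P.RF) (z j)) G =
        algebraMap (P.RF)[X] (RatFunc P.RF) (MvPolynomial.aeval z G) := fun G =>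
      MvPolynomial.aeval_algebraMap_apply (RatFunc P.RF) z G
    intro G
    constructor
    · intro hG
      rw [h0, hforw G hG, map_zero]
    · intro hG
      refine spec_eq (y := x) (d := a + 1)
        (z := fun j => algebraMap (P.RF)[X] (RatFunc P.RF) (z j))
        (fun G' hG' => by rw [h0, hforw G' hG', map_zero]) ?_
        (s := fun i => ((finSuccEquiv a) i).elim j0 s) hind3 G hG
      rw [← hn]
      exact trdeg_le_of_injective (IntermediateField.adjoin ℂ (Set.range x)).val
        Subtype.val_injective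
  obtain ⟨φ, -⟩ := exists_hom x _ hgen hiff
  exact ⟨φ⟩

end Pool.Agent.Helper37K9.CI
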